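import Pool.Agent.Lib.MP_305fdd_al.Fr.Top.Gr
import Pool.Agent.Lib.MP_305fdd_al.Fr.Asm.Stm

/-!
# MP_305fdd_al, F_r project, TOP: `D_zero`, `D_ab`; torsion; centralisers
-/

set_option autoImplicit false

namespace Pool.Agent.FrTop

open Matrix Pool.Agent.FrDiv Pool.Agent.FrN Pool.Agent.FrAsm

section cls

variable {Γ F : Type} [Group Γ] [Field F] [Algebra (ZMod 2) F] {b : ℕ}
  {ρ : Γ →* SpecialLinearGroup (Fin 2) F}

/-- the trivial point -/
theorem triv (h : Uv Γ F ρ) : ∃ φ : OO 2 ρ →ₐ[ZMod 2] ZMod 2,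
    ∀ g i j, φ ((rO ρ g).1 i j) = (1 : Matrix (Fin 2) (Fin 2) (ZMod 2)) i j := by
  obtain ⟨φ, hφ⟩ := h.univ (ZMod 2) 1
  exact ⟨φ, hφ⟩

theorem rO_mem {φ : OO 2 ρ →ₐ[ZMod 2] ZMod 2}
    (hφ : ∀ g i j, φ ((rO ρ g).1 i j) = (1 : Matrix (Fin 2) (Fin 2) (ZMod 2)) i j) (x : Γ)
    (i j : Fin 2) : (rO ρ x).1 i j - (1 : Matrix (Fin 2) (Fin 2) (OO 2 ρ)) i j ∈ mI ρ φ := by
  rw [mem_mI, map_sub, hφ]
  have := one_map φ.toRingHom i j
  change φ ((1 : Matrix (Fin 2) (Fin 2) (OO 2 ρ)) i j) = _ at this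
  rw [this, sub_self]

/-- an element which is trivial modulo all powers of the maximal ideal is trivial -/
theorem eq_one_of_all (h : Uv Γ F ρ) (φ : OO 2 ρ →ₐ[ZMod 2] ZMod 2) (x : Γ)
    (hx : ∀ k i j, (rO ρ x).1 i j - (1 : Matrix (Fin 2) (Fin 2) (OO 2 ρ)) i j ∈ mI ρ φ ^ k) :
    x = 1 := by
  have := h.fg
  have h1 : rO ρ x = 1 := by
    apply Subtype.ext
    ext i j
    have h2 : (rO ρ x).1 i j - (1 : Matrix (Fin 2) (Fin 2) (OO 2 ρ)) i j = 0 :=
      krull' (φ := φ) fun k => hx k i j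
    rw [sub_eq_zero.1 h2]
    rfl
  exact h.inj (by rw [rO_eq_one h1, map_one])

/-- there is no torsion of odd order -/
theorem tf_odd (h : Uv Γ F ρ) {x : Γ} {n : ℕ} (hn : Odd n) (hx : x ^ n = 1) : x = 1 := by
  obtain ⟨φ, hφ⟩ := triv h
  refine eq_one_of_all h φ x fun k => ?_
  let mk := Ideal.Quotient.mk (mI ρ φ ^ k)
  let z : SpecialLinearGroup (Fin 2) (OO 2 ρ ⧸ mI ρ φ ^ k) := SpecialLinearGroup.map mk (rO ρ x)
  have hJ : ((mI ρ φ).map mk) ^ k = ⊥ := by
    rw [← Ideal.map_pow]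
    exact Ideal.map_quotient_self _
  have h1 : z ^ 2 ^ k = 1 := by
    refine sl_pow two_eq _ k hJ z fun i j => ?_
    have h2 := Ideal.mem_map_of_mem mk (rO_mem hφ x i j)
    rw [map_sub, one_map] at h2
    exact h2
  have h2 : z ^ n = 1 := by
    change (SpecialLinearGroup.map mk (rO ρ x)) ^ n = 1
    rw [← map_pow, ← map_pow, hx, map_one, map_one]
  have h3 : z = 1 := by
    have h4 : Nat.gcd (2 ^ k) n = 1 := (Nat.Coprime.pow_left k
      (Nat.coprime_two_left.2 hn))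
    have h5 := pow_gcd_eq_one.2 ⟨h1, h2⟩
    rwa [h4, pow_one] at h5
  intro i j
  have h4 : z.1 i j = mk ((rO ρ x).1 i j) := rfl
  have h5 : mk ((rO ρ x).1 i j) = mk ((1 : Matrix (Fin 2) (Fin 2) (OO 2 ρ)) i j) := by
    rw [← h4, h3, one_map]
    rfl
  exact Ideal.Quotient.eq.1 h5

theorem tf_two (h : Cls b Γ F ρ) {x : Γ} (hx : x ^ 2 = 1) : x = 1 := by
  apply div h
  have h2 : (2 : F) = 0 := two_eq
  have h1 : (ρ x).1 * (ρ x).1 = 1 := by
    have h3 : ρ x * ρ x = 1 := by rw [← map_mul, ← pow_two, hx, map_one]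
    have h4 := congrArg Subtype.val h3
    exact h4
  have e00 := congrFun (congrFun h1 0) 0
  have e01 := congrFun (congrFun h1 0) 1
  have e10 := congrFun (congrFun h1 1) 0
  have e11 := congrFun (congrFun h1 1) 1
  rw [Matrix.mul_apply, Fin.sum_univ_two] at e00 e01 e10 e11
  rw [Matrix.one_apply_eq] at e00 e11
  rw [Matrix.one_apply_ne (by decide)] at e01 e10
  rw [Matrix.trace_fin_two]
  by_contra hne
  have hb : (ρ x).1 0 1 = 0 := by
    have : ((ρ x).1 0 0 + (ρ x).1 1 1) * (ρ x).1 0 1 = 0 := by linear_combination e01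
    exact (mul_eq_zero.1 this).resolve_left hne
  rw [hb, zero_mul, add_zero] at e00
  rw [hb, mul_zero, zero_add] at e11
  have h3 : ((ρ x).1 0 0 + (ρ x).1 1 1) ^ 2 = 0 := by
    linear_combination e00 + e11 + (1 + (ρ x).1 0 0 * (ρ x).1 1 1) * h2
  exact hne (pow_eq_zero_iff (two_ne_zero) |>.1 h3)

/-- `Γ` is torsion free. -/
theorem tf (h : Cls b Γ F ρ) {x : Γ} {n : ℕ} (hn : n ≠ 0) (hx : x ^ n = 1) : x = 1 := by
  obtain ⟨a, m, hm, rfl⟩ := Nat.exists_eq_two_pow_mul_odd hn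
  rw [pow_mul] at hx
  have h1 := tf_odd h.toUv hm hx
  clear hx hn
  induction a with
  | zero => simpa using h1
  | succ a ih =>
    rw [pow_succ, pow_mul] at h1
    exact ih (tf_two h h1)

/-- commuting is transitive (only faithfulness is used) -/
theorem comm_trans (hinj : Function.Injective ρ) {x y z : Γ} (hy : y ≠ 1) (hxy : x * y = y * x)
    (hyz : y * z = z * y) : x * z = z * x := by
  have hy1 : (ρ y).1 ≠ 1 := fun h => hy (hinj (by
    rw [map_one]
    exact Subtype.ext h))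
  have c1 : (ρ x).1 * (ρ y).1 = (ρ y).1 * (ρ x).1 :=
    congrArg Subtype.val (show ρ x * ρ y = ρ y * ρ x by rw [← map_mul, hxy, map_mul])
  have c2 : (ρ z).1 * (ρ y).1 = (ρ y).1 * (ρ z).1 :=
    congrArg Subtype.val (show ρ z * ρ y = ρ y * ρ z by rw [← map_mul, ← hyz, map_mul])
  obtain ⟨α, β, h1⟩ := FrX.comm_form two_eq (ρ y).2 hy1 c1
  obtain ⟨α', β', h2⟩ := FrX.comm_form two_eq (ρ y).2 hy1 c2
  have e1 : (ρ x).1 = α • (1 : Matrix (Fin 2) (Fin 2) F) + β • (ρ y).1 := by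
    ext i j
    exact h1 i j
  have e2 : (ρ z).1 = α' • (1 : Matrix (Fin 2) (Fin 2) F) + β' • (ρ y).1 := by
    ext i j
    exact h2 i j
  apply hinj
  rw [map_mul, map_mul]
  apply Subtype.ext
  change (ρ x).1 * (ρ z).1 = (ρ z).1 * (ρ x).1
  rw [e1, e2]
  simp only [add_mul, mul_add, smul_mul_assoc, mul_smul_comm, one_mul, mul_one, smul_add, smul_smul,
    mul_comm α', mul_comm β']
  abel

end cls

/-- `D_zero` -/
theorem p_zero : D_zero := by
  rintro Γ _ ⟨F, _, _, ρ, h⟩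
  obtain ⟨φ, hφ⟩ := triv h.toUv
  obtain ⟨g, hg⟩ := exists_dual' h.ab
  have := h.fg
  have key : ∀ x : Γ, x = 1 := by
    intro x
    have hx : ∀ k i j, (rO ρ x⁻¹).1 i j - (1 : Matrix (Fin 2) (Fin 2) (OO 2 ρ)) i j ∈
        mI ρ φ ^ k := by
      intro k
      obtain ⟨w, hw⟩ := approx (mI ρ φ) (rO ρ) (fun k => fin_quot k) (rO_mem hφ) g hg k x⁻¹
      have hw1 : w = 1 := Subsingleton.elim _ _
      intro i j
      have h1 := hw i j
      rw [hw1, map_one, map_one] at h1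
      have h2 := (mI ρ φ ^ k).neg_mem h1
      rw [neg_sub] at h2
      exact h2
    exact inv_eq_one.1 (eq_one_of_all h.toUv φ x⁻¹ hx)
  exact ⟨fun x y => by rw [key x, key y]⟩

/-- nonabelian as soon as `b ≥ 2` -/
theorem le_one_of_ab {Γ F : Type} [Group Γ] [Field F] [Algebra (ZMod 2) F] {b : ℕ}
    {ρ : Γ →* SpecialLinearGroup (Fin 2) F} (h : Cls b Γ F ρ) (hab : Ab Γ) : b ≤ 1 := by
  by_contra hb
  push Not at hb
  obtain ⟨φ, hφ⟩ := triv h.toUv
  obtain ⟨g, hg⟩ := exists_dual' h.ab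
  have hgr := gr h φ hφ g hg
  let i0 : Fin b := ⟨0, by omega⟩
  let i1 : Fin b := ⟨1, hb⟩
  have hne : i0 ≠ i1 := by
    intro h
    have h1 : (0 : ℕ) = 1 := congrArg Fin.val h
    exact absurd h1 (by decide)
  let f : S b := MvPolynomial.X (i0, 1) * MvPolynomial.X (i1, 2) -
    MvPolynomial.X (i1, 1) * MvPolynomial.X (i0, 2)
  have hf : f.IsHomogeneous 2 := by
    refine MvPolynomial.IsHomogeneous.sub ?_ ?_
    · exact (MvPolynomial.isHomogeneous_X _ _).mul (MvPolynomial.isHomogeneous_X _ _)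
    · exact (MvPolynomial.isHomogeneous_X _ _).mul (MvPolynomial.isHomogeneous_X _ _)
  have hc : (rO ρ (g i0)).1 * (rO ρ (g i1)).1 = (rO ρ (g i1)).1 * (rO ρ (g i0)).1 :=
    congrArg Subtype.val (show rO ρ (g i0) * rO ρ (g i1) = rO ρ (g i1) * rO ρ (g i0) by
      rw [← map_mul, hab, map_mul])
  have hz : MvPolynomial.aeval (u (rO ρ) g) f = 0 := by
    rw [map_sub, map_mul, map_mul, MvPolynomial.aeval_X, MvPolynomial.aeval_X,
      MvPolynomial.aeval_X, MvPolynomial.aeval_X]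
    have e00 := congrFun (congrFun hc 0) 0
    rw [Matrix.mul_apply, Fin.sum_univ_two, Matrix.mul_apply, Fin.sum_univ_two] at e00
    change (rO ρ (g i0)).1 0 1 * (rO ρ (g i1)).1 1 0 - (rO ρ (g i1)).1 0 1 * (rO ρ (g i0)).1 1 0 = 0
    linear_combination e00
  have h0 := hgr 2 f hf (by rw [hz]; exact Ideal.zero_mem _)
  have h1 : MvPolynomial.eval (fun p : Fin b × Fin 3 =>
      if p = (i0, 1) ∨ p = (i1, 2) then (1 : ZMod 2) else 0) f = 1 := by
    rw [map_sub, map_mul, map_mul, MvPolynomial.eval_X, MvPolynomial.eval_X, MvPolynomial.eval_X,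
      MvPolynomial.eval_X]
    have e1 : ((i1, 1) : Fin b × Fin 3) ≠ (i0, 1) := fun h => hne (congrArg Prod.fst h).symm
    have e2 : ((i1, 1) : Fin b × Fin 3) ≠ (i1, 2) := fun h => by
      have h1 : (1 : Fin 3) = 2 := congrArg Prod.snd h
      exact absurd h1 (by decide)
    rw [if_pos (Or.inl rfl), if_pos (Or.inr rfl), if_neg (by tauto), zero_mul, mul_one, sub_zero]
  rw [h0, map_zero] at h1
  exact absurd h1 (by decide)

/-- `D_ab` -/
theorem p_ab : D_ab := by
  rintro b Γ _ ⟨F, _, _, ρ, h⟩ hab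
  have hb := le_one_of_ab h hab
  let _ : CommGroup Γ := { (inferInstance : Group Γ) with mul_comm := hab }
  have hfg : Group.FG Γ := h.fg
  have hfg' : Module.Finite ℤ (Additive Γ) := by
    rw [Module.Finite.iff_addGroup_fg]
    exact GroupFG.iff_add_fg.1 hfg
  have htf : IsAddTorsionFree (Additive Γ) := by
    refine ⟨fun n hn x y hxy => ?_⟩
    have h1 : (Additive.toMul x) ^ n = (Additive.toMul y) ^ n := hxy
    have h2 : (Additive.toMul x * (Additive.toMul y)⁻¹) ^ n = 1 := by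
      rw [mul_pow, inv_pow, h1, mul_inv_cancel]
    have h3 := tf h hn h2
    have h4 : Additive.toMul x = Additive.toMul y := mul_inv_eq_one.1 h3
    exact Additive.toMul.injective h4
  have hfree : Module.Free ℤ (Additive Γ) := inferInstance
  let B := Module.finBasis ℤ (Additive Γ)
  let n := Module.finrank ℤ (Additive Γ)
  -- characters
  have hcard : Nat.card (Γ →* Multiplicative (ZMod 2)) = 2 ^ n := by
    let e1 : (Γ →* Multiplicative (ZMod 2)) ≃ (Additive Γ →+ ZMod 2) := MonoidHom.toAdditiveLeft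
    let e2 : (Additive Γ →+ ZMod 2) ≃ (Additive Γ →ₗ[ℤ] ZMod 2) :=
      { toFun := fun f => f.toIntLinearMap
        invFun := fun f => f.toAddMonoidHom
        left_inv := fun f => rfl
        right_inv := fun f => rfl }
    rw [Nat.card_congr (e1.trans (e2.trans (B.constr ℤ).symm.toEquiv)), Nat.card_fun,
      Nat.card_zmod, Nat.card_fin]
  have hn : n = b := Nat.pow_right_injective le_rfl (hcard.symm.trans h.ab)
  interval_cases b
  · have hs : Subsingleton Γ := p_zero Γ ⟨F, _, _, ρ, h⟩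
    exact ⟨{ toFun := fun _ => 1, invFun := fun _ => 1, left_inv := fun _ => Subsingleton.elim _ _,
             right_inv := fun _ => Subsingleton.elim _ _, map_mul' := fun _ _ => rfl }⟩
  · have hn' : Module.finrank ℤ (Additive Γ) = 1 := hn
    let e3 : Additive Γ ≃ₗ[ℤ] (Fin 1 → ℤ) := (Module.finBasisOfFinrankEq ℤ (Additive Γ) hn').equivFun
    let e4 : (Fin 1 → ℤ) ≃ₗ[ℤ] ℤ := LinearEquiv.funUnique (Fin 1) ℤ ℤ
    let e5 : Additive Γ ≃+ ℤ := (e3.trans e4).toAddEquiv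
    let e6 : Γ ≃* Multiplicative ℤ :=
      { toFun := fun x => Multiplicative.ofAdd (e5 (Additive.ofMul x))
        invFun := fun x => Additive.toMul (e5.symm (Multiplicative.toAdd x))
        left_inv := fun x => by simp
        right_inv := fun x => by simp
        map_mul' := fun x y => by
          rw [ofMul_mul, map_add, ofAdd_add] }
    exact ⟨e6.trans (FreeGroup.mulEquivIntOfUnique (α := Fin 1)).symm⟩

end Pool.Agent.FrTop
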