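import Pool.Agent.Lib.MP_305fdd_al.Fr.Top.Uni

/-!
# MP_305fdd_al, F_r project, TOP: the tangent cone at the trivial representation, and the theorem on
elements of trace zero for the class `Cls`
-/

set_option autoImplicit false

namespace Pool.Agent.FrTop

open Matrix Pool.Agent.FrDiv Pool.Agent.FrN Pool.Agent.FrAsm

section chars

variable {Γ : Type} [Group Γ]

/-- `c` elements which see all characters of a group of at most `2 ^ c` characters of order two -/
theorem exists_dual (c : ℕ) : ∀ Y : Subgroup (Γ →* Multiplicative (ZMod 2)), Finite Y →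
    Nat.card Y ≤ 2 ^ c → ∃ g : Fin c → Γ, ∀ χ ∈ Y, (∀ i, χ (g i) = 1) → χ = 1 := by
  induction c with
  | zero =>
    intro Y hfin hY
    refine ⟨fun i => i.elim0, fun χ hχ _ => ?_⟩
    rw [pow_zero] at hY
    have h1 : Subsingleton Y := Finite.card_le_one_iff_subsingleton.1 hY
    exact congrArg Subtype.val (Subsingleton.elim (⟨χ, hχ⟩ : Y) 1)
  | succ c ih =>
    intro Y hfin hY
    by_cases h1 : ∀ χ ∈ Y, χ = 1
    · exact ⟨fun _ => 1, fun χ hχ _ => h1 χ hχ⟩
    · push Not at h1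
      obtain ⟨χ₀, h0, h01⟩ := h1
      have h2 : ∃ x, χ₀ x ≠ 1 := by
        by_contra h3
        push Not at h3
        exact h01 (MonoidHom.ext h3)
      obtain ⟨x, hx⟩ := h2
      let Y' : Subgroup (Γ →* Multiplicative (ZMod 2)) :=
        { carrier := {χ | χ ∈ Y ∧ χ x = 1}
          one_mem' := ⟨Y.one_mem, rfl⟩
          mul_mem' := by
            rintro a b ⟨ha, ha'⟩ ⟨hb, hb'⟩
            refine ⟨Y.mul_mem ha hb, ?_⟩
            rw [MonoidHom.mul_apply, ha', hb', one_mul]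
          inv_mem' := by
            rintro a ⟨ha, ha'⟩
            refine ⟨Y.inv_mem ha, ?_⟩
            rw [MonoidHom.inv_apply, ha', inv_one] }
      have hY' : Y' ≤ Y := fun χ hχ => hχ.1
      have hfin' : Finite Y' := Finite.of_injective (Subgroup.inclusion hY')
        (Subgroup.inclusion_injective hY')
      let f : Bool × Y' → Y := fun p => ⟨(bif p.1 then χ₀ else 1) * p.2.1, by
        refine Y.mul_mem ?_ (hY' p.2.2)
        cases p.1
        · exact Y.one_mem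
        · exact h0⟩
      have hf : Function.Injective f := by
        rintro ⟨p, a⟩ ⟨q, b⟩ hpq
        have e1 : (bif p then χ₀ else 1) * a.1 = (bif q then χ₀ else 1) * b.1 :=
          congrArg Subtype.val hpq
        have e2 := DFunLike.congr_fun e1 x
        rw [MonoidHom.mul_apply, MonoidHom.mul_apply, a.2.2, b.2.2, mul_one, mul_one] at e2
        have e3 : p = q := by
          cases p <;> cases q
          · rfl
          · exact absurd e2.symm hx
          · exact absurd e2 hx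
          · rfl
        subst e3
        rw [mul_right_inj] at e1
        rw [Subtype.ext e1]
      have hcard := Nat.card_le_card_of_injective f hf
      rw [Nat.card_prod, Nat.card_eq_fintype_card (α := Bool), Fintype.card_bool] at hcard
      rw [pow_succ] at hY
      obtain ⟨g, hg⟩ := ih Y' hfin' (by omega)
      refine ⟨Fin.cons x g, fun χ hχ h => ?_⟩
      refine hg χ ⟨hχ, ?_⟩ fun i => ?_
      · have := h 0
        rwa [Fin.cons_zero] at this
      · have := h i.succ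
        rwa [Fin.cons_succ] at this

theorem exists_dual' {b : ℕ} (hab : Nat.card (Γ →* Multiplicative (ZMod 2)) = 2 ^ b) :
    ∃ g : Fin b → Γ, ∀ χ : Γ →* Multiplicative (ZMod 2), (∀ i, χ (g i) = 1) → χ = 1 := by
  have hfin : Finite (Γ →* Multiplicative (ZMod 2)) :=
    Nat.finite_of_card_ne_zero (by rw [hab]; positivity)
  obtain ⟨g, hg⟩ := exists_dual b (⊤ : Subgroup (Γ →* Multiplicative (ZMod 2))) inferInstance
    (by rw [Subgroup.card_top, hab])
  exact ⟨g, fun χ => hg χ trivial⟩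

end chars

section field

variable {Γ F : Type} [Group Γ] [Field F] [Algebra (ZMod 2) F]

/-- the representation over the ring generated by the entries -/
def rO (ρ : Γ →* SpecialLinearGroup (Fin 2) F) : Γ →* SpecialLinearGroup (Fin 2) (OO 2 ρ) where
  toFun g := ⟨Matrix.of fun i j => ⟨(ρ g).1 i j, mem_OO ρ g i j⟩, by
    apply Subtype.ext
    have := (ρ g).2
    rw [Matrix.det_fin_two] at this ⊢
    exact this⟩
  map_one' := by
    apply Subtype.ext
    ext i j
    change (ρ 1).1 i j = ((1 : Matrix (Fin 2) (Fin 2) (OO 2 ρ)) i j : F)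
    rw [map_one]
    change (1 : Matrix (Fin 2) (Fin 2) F) i j = _
    rw [Matrix.one_apply, Matrix.one_apply]
    split_ifs <;> rfl
  map_mul' x y := by
    apply Subtype.ext
    ext i j
    change (ρ (x * y)).1 i j = _
    rw [map_mul]
    change ((ρ x).1 * (ρ y).1) i j = _
    change _ = (((Matrix.of fun i j => (⟨(ρ x).1 i j, mem_OO ρ x i j⟩ : OO 2 ρ)) *
      (Matrix.of fun i j => (⟨(ρ y).1 i j, mem_OO ρ y i j⟩ : OO 2 ρ))) i j : OO 2 ρ).1
    rw [Matrix.mul_apply, Matrix.mul_apply]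
    simp only [AddSubmonoidClass.coe_finsetSum, MulMemClass.coe_mul, Matrix.of_apply]

@[simp] theorem rO_val (ρ : Γ →* SpecialLinearGroup (Fin 2) F) (g : Γ) (i j : Fin 2) :
    ((rO ρ g).1 i j : F) = (ρ g).1 i j := rfl

theorem rO_eq_one {ρ : Γ →* SpecialLinearGroup (Fin 2) F} {g : Γ} (h : rO ρ g = 1) : ρ g = 1 := by
  apply Subtype.ext
  ext i j
  have h1 : ((rO ρ g).1 i j : F) = ((1 : Matrix (Fin 2) (Fin 2) (OO 2 ρ)) i j : F) := by
    rw [h]
    rfl
  rw [rO_val] at h1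
  rw [h1]
  change _ = (1 : Matrix (Fin 2) (Fin 2) F) i j
  rw [Matrix.one_apply, Matrix.one_apply]
  split_ifs <;> rfl

/-- two homomorphisms which agree on the entries are equal -/
theorem hom_ext {ρ : Γ →* SpecialLinearGroup (Fin 2) F} {R : Type} [CommRing R]
    [Algebra (ZMod 2) R] (φ ψ : OO 2 ρ →ₐ[ZMod 2] R)
    (h : ∀ g i j, φ ((rO ρ g).1 i j) = ψ ((rO ρ g).1 i j)) : φ = ψ := by
  apply AlgHom.ext
  rintro ⟨x, hx⟩
  induction hx using Algebra.adjoin_induction with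
  | mem x hx =>
    obtain ⟨g, i, j, rfl⟩ := hx
    exact h g i j
  | algebraMap r =>
    have h1 : (⟨algebraMap (ZMod 2) F r, (OO 2 ρ).algebraMap_mem r⟩ : OO 2 ρ) =
        algebraMap (ZMod 2) (OO 2 ρ) r := rfl
    change φ ⟨algebraMap (ZMod 2) F r, (OO 2 ρ).algebraMap_mem r⟩ = ψ _
    rw [h1, φ.commutes, ψ.commutes]
  | add x y hx hy ih1 ih2 =>
    change φ (⟨x, hx⟩ + ⟨y, hy⟩) = ψ (⟨x, hx⟩ + ⟨y, hy⟩)
    rw [map_add, map_add, ih1, ih2]
  | mul x y hx hy ih1 ih2 =>
    change φ (⟨x, hx⟩ * ⟨y, hy⟩) = ψ (⟨x, hx⟩ * ⟨y, hy⟩)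
    rw [map_mul, map_mul, ih1, ih2]

theorem one_map {R R' : Type} [CommRing R] [CommRing R'] (f : R →+* R') (i j : Fin 2) :
    f ((1 : Matrix (Fin 2) (Fin 2) R) i j) = (1 : Matrix (Fin 2) (Fin 2) R') i j := by
  rw [Matrix.one_apply, Matrix.one_apply]
  split_ifs
  · exact map_one f
  · exact map_zero f

/-- a homomorphism congruent to the trivial point modulo `J` -/
theorem point_congr {ρ : Γ →* SpecialLinearGroup (Fin 2) F} (φ : OO 2 ρ →ₐ[ZMod 2] ZMod 2)
    (hφ : ∀ g i j, φ ((rO ρ g).1 i j) = (1 : Matrix (Fin 2) (Fin 2) (ZMod 2)) i j)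
    {R : Type} [CommRing R] [Algebra (ZMod 2) R] (J : Ideal R) (ψ : OO 2 ρ →ₐ[ZMod 2] R)
    (hψ : ∀ g i j, ψ ((rO ρ g).1 i j) - (1 : Matrix (Fin 2) (Fin 2) R) i j ∈ J) (x : OO 2 ρ) :
    ψ x - algebraMap (ZMod 2) R (φ x) ∈ J := by
  have h1 : (Ideal.Quotient.mkₐ (ZMod 2) J).comp ψ =
      (Algebra.ofId (ZMod 2) (R ⧸ J)).comp φ := by
    apply hom_ext
    intro x i j
    rw [AlgHom.comp_apply, AlgHom.comp_apply, hφ]
    have h2 := hψ x i j
    rw [← Ideal.Quotient.eq] at h2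
    change Ideal.Quotient.mk J (ψ ((rO ρ x).1 i j)) = algebraMap (ZMod 2) (R ⧸ J) _
    rw [h2, one_map, one_map]
  have h2 := DFunLike.congr_fun h1 x
  exact Ideal.Quotient.eq.1 h2

variable (ρ : Γ →* SpecialLinearGroup (Fin 2) F) (φ : OO 2 ρ →ₐ[ZMod 2] ZMod 2)

/-- the maximal ideal of a point -/
def mI : Ideal (OO 2 ρ) := RingHom.ker φ.toRingHom

theorem mem_mI {x : OO 2 ρ} : x ∈ mI ρ φ ↔ φ x = 0 := Iff.rfl

variable {ρ} {φ}

theorem fin_quot [hΓ : Group.FG Γ] (k : ℕ) : Finite (OO 2 ρ ⧸ mI ρ φ ^ k) := by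
  have hFG := FrX.OO_fg (p := 2) ρ
  have hFT : Algebra.FiniteType (ZMod 2) (OO 2 ρ) := (OO 2 ρ).fg_iff_finiteType.1 hFG
  have hN : IsNoetherianRing (OO 2 ρ) := Algebra.FiniteType.isNoetherianRing (ZMod 2) _
  have hsurj : Function.Surjective φ.toRingHom := ZMod.ringHom_surjective _
  have hfin1 : Finite (OO 2 ρ ⧸ mI ρ φ) :=
    Finite.of_equiv _ (RingHom.quotientKerEquivOfSurjective hsurj).symm.toEquiv
  exact Ideal.finite_quotient_pow (IsNoetherian.noetherian _) k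

theorem krull [hΓ : Group.FG Γ] : ⨅ k : ℕ, mI ρ φ ^ k = ⊥ := by
  have hFG := FrX.OO_fg (p := 2) ρ
  have hFT : Algebra.FiniteType (ZMod 2) (OO 2 ρ) := (OO 2 ρ).fg_iff_finiteType.1 hFG
  have hN : IsNoetherianRing (OO 2 ρ) := Algebra.FiniteType.isNoetherianRing (ZMod 2) _
  have hm : mI ρ φ ≠ ⊤ := by
    intro h
    have : (1 : OO 2 ρ) ∈ mI ρ φ := by rw [h]; trivial
    rw [mem_mI, map_one] at this
    exact one_ne_zero this
  exact Ideal.iInf_pow_eq_bot_of_isDomain _ hm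

theorem krull' [hΓ : Group.FG Γ] {x : OO 2 ρ} (hx : ∀ k, x ∈ mI ρ φ ^ k) : x = 0 := by
  have : x ∈ (⨅ k : ℕ, mI ρ φ ^ k : Ideal (OO 2 ρ)) := by
    rw [Ideal.mem_iInf]
    exact hx
  rw [krull] at this
  exact this

end field

section gr

variable {Γ F : Type} [Group Γ] [Field F] [Algebra (ZMod 2) F] {b : ℕ}
  {ρ : Γ →* SpecialLinearGroup (Fin 2) F}

open MvPolynomial

/-- THE TANGENT CONE at the trivial representation is an affine space of dimension `3 b`. -/
theorem gr_of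
    (univ : ∀ (R : Type) [CommRing R] [Algebra (ZMod 2) R]
      (r : Γ →* Matrix.SpecialLinearGroup (Fin 2) R),
      ∃ φ : OO 2 ρ →ₐ[ZMod 2] R, ∀ g i j, φ ⟨(ρ g).1 i j, mem_OO ρ g i j⟩ = (r g).1 i j)
    (sm : ∀ (R : Type) [CommRing R] [Finite R] [Algebra (ZMod 2) R] (I : Ideal R), I ^ 2 = ⊥ →
      ∀ r : Γ →* SpecialLinearGroup (Fin 2) (R ⧸ I),
      Nat.card {s : Γ →* SpecialLinearGroup (Fin 2) R //
        (SpecialLinearGroup.map (Ideal.Quotient.mk I)).comp s = r} = Nat.card I ^ (3 * b))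
    (φ : OO 2 ρ →ₐ[ZMod 2] ZMod 2)
    (hφ : ∀ g i j, φ ((rO ρ g).1 i j) = (1 : Matrix (Fin 2) (Fin 2) (ZMod 2)) i j)
    (g : Fin b → Γ) (hg : ∀ χ : Γ →* Multiplicative (ZMod 2), (∀ i, χ (g i) = 1) → χ = 1) :
    Gr (mI ρ φ) (rO ρ) g := by
  intro n f hf hmem
  -- the truncated polynomial ring
  let V : Ideal (S b) := idealOfVars (Fin b × Fin 3) (ZMod 2)
  let R : Type := S b ⧸ V ^ (n + 1)
  let mk : S b →+* R := Ideal.Quotient.mk (V ^ (n + 1))
  have hX : ∀ l, X l ∈ V := fun l => Ideal.subset_span ⟨l, rfl⟩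
  have hV1 : Finite (S b ⧸ V) := by
    have hs : ∀ p : S b, p - C (coeff 0 p) ∈ V := by
      intro p
      have h1 : p - C (coeff 0 p) ∈ V ^ 1 := by
        rw [mem_pow_idealOfVars_iff']
        intro x hx
        have : x = 0 := by
          rwa [Nat.lt_one_iff, Finsupp.degree_eq_zero_iff] at hx
        rw [this, coeff_sub, coeff_zero_C, sub_self]
      rwa [pow_one] at h1
    refine Finite.of_surjective (fun a : ZMod 2 => Ideal.Quotient.mk V (C a)) ?_
    intro y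
    obtain ⟨p, rfl⟩ := Ideal.Quotient.mk_surjective y
    refine ⟨coeff 0 p, ?_⟩
    symm
    exact Ideal.Quotient.eq.2 (hs p)
  have hRfin : Finite R := Ideal.finite_quotient_pow (idealOfVars_fg _ _) (n + 1)
  let J : Ideal R := V.map mk
  have hJ : J ^ (n + 1) = ⊥ := by
    rw [← Ideal.map_pow]
    exact Ideal.map_quotient_self _
  have hxJ : ∀ l, mk (X l) ∈ J := fun l => Ideal.mem_map_of_mem _ (hX l)
  have hunit : ∀ l, IsUnit (1 + mk (X l)) := by
    intro l
    apply IsNilpotent.isUnit_one_add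
    refine ⟨n + 1, ?_⟩
    have := Ideal.pow_mem_pow (hxJ l) (n + 1)
    rwa [hJ] at this
  choose c hc using fun l => (hunit l).exists_right_inv
  -- the generic tuple
  let hm : Fin b → SpecialLinearGroup (Fin 2) R := fun i =>
    ⟨!![1 + mk (X (i, 0)), mk (X (i, 1)); mk (X (i, 2)),
      c (i, 0) * (1 + mk (X (i, 1)) * mk (X (i, 2)))], by
      rw [Matrix.det_fin_two_of]
      linear_combination (1 + mk (X (i, 1)) * mk (X (i, 2))) * hc (i, 0)⟩
  have hm1 : ∀ l i j, (hm l).1 i j - (1 : Matrix (Fin 2) (Fin 2) R) i j ∈ J := by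
    intro l i j
    fin_cases i <;> fin_cases j
    · change 1 + mk (X (l, 0)) - 1 ∈ J
      rw [add_sub_cancel_left]
      exact hxJ _
    · change mk (X (l, 1)) - 0 ∈ J
      rw [sub_zero]
      exact hxJ _
    · change mk (X (l, 2)) - 0 ∈ J
      rw [sub_zero]
      exact hxJ _
    · change c (l, 0) * (1 + mk (X (l, 1)) * mk (X (l, 2))) - 1 ∈ J
      have h1 : c (l, 0) * (1 + mk (X (l, 1)) * mk (X (l, 2))) - 1 =
          c (l, 0) * mk (X (l, 2)) * mk (X (l, 1)) - c (l, 0) * mk (X (l, 0)) := by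
        linear_combination hc (l, 0)
      rw [h1]
      exact J.sub_mem (J.mul_mem_left _ (hxJ _)) (J.mul_mem_left _ (hxJ _))
  obtain ⟨s, hs1, hs⟩ := ext_all sm g hg n R J hJ hm hm1
  obtain ⟨ψ, hψ⟩ := univ R s
  have hψ' : ∀ x i j, ψ ((rO ρ x).1 i j) = (s x).1 i j := hψ
  -- `ψ` maps the maximal ideal to `J`
  have hψm : ∀ x ∈ mI ρ φ, ψ x ∈ J := by
    intro x hx
    have h1 := point_congr φ hφ J ψ (fun x i j => by rw [hψ']; exact hs1 x i j) x
    rwa [(mem_mI ρ φ).1 hx, map_zero, sub_zero] at h1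
  have hψu : ∀ l, ψ (u (rO ρ) g l) = mk (X l) := by
    rintro ⟨i, j⟩
    unfold u
    fin_cases j
    · change ψ ((rO ρ (g i)).1 0 0 - 1) = _
      rw [map_sub, map_one, hψ', hs]
      change 1 + mk (X (i, 0)) - 1 = _
      rw [add_sub_cancel_left]
      rfl
    · change ψ ((rO ρ (g i)).1 0 1) = _
      rw [hψ', hs]
      rfl
    · change ψ ((rO ρ (g i)).1 1 0) = _
      rw [hψ', hs]
      rfl
  have hψf : ψ (aeval (u (rO ρ) g) f) = mk f := by
    have h1 : ψ.comp (aeval (u (rO ρ) g)) = Ideal.Quotient.mkₐ (ZMod 2) (V ^ (n + 1)) := by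
      apply MvPolynomial.algHom_ext
      intro l
      rw [AlgHom.comp_apply, aeval_X, hψu]
      rfl
    exact DFunLike.congr_fun h1 f
  have hmapJ : (mI ρ φ).map ψ.toRingHom ≤ J := Ideal.map_le_iff_le_comap.2 hψm
  have h1 : mk f ∈ J ^ (n + 1) := by
    rw [← hψf]
    have h2 : ψ.toRingHom (aeval (u (rO ρ) g) f) ∈ ((mI ρ φ) ^ (n + 1)).map ψ.toRingHom :=
      Ideal.mem_map_of_mem _ hmem
    rw [Ideal.map_pow] at h2
    exact Ideal.pow_right_mono hmapJ (n + 1) h2
  rw [hJ] at h1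
  have h2 : f ∈ V ^ (n + 1) := Ideal.Quotient.eq_zero_iff_mem.1 h1
  rw [mem_pow_idealOfVars_iff'] at h2
  ext x
  rw [coeff_zero]
  by_contra h3
  have h4 := hf h3
  have h5 : Finsupp.degree x = n := by
    rw [← h4, Finsupp.degree_eq_weight_one]
    rfl
  exact h3 (h2 x (by omega))

theorem gr (h : Cls b Γ F ρ) (φ : OO 2 ρ →ₐ[ZMod 2] ZMod 2)
    (hφ : ∀ g i j, φ ((rO ρ g).1 i j) = (1 : Matrix (Fin 2) (Fin 2) (ZMod 2)) i j)
    (g : Fin b → Γ) (hg : ∀ χ : Γ →* Multiplicative (ZMod 2), (∀ i, χ (g i) = 1) → χ = 1) :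
    Gr (mI ρ φ) (rO ρ) g := gr_of h.univ h.sm φ hφ g hg

/-- BLOCK DIV for the class `Cls`: an element of trace zero is trivial. -/
theorem div (h : Cls b Γ F ρ) {x : Γ} (hx : (ρ x).1.trace = 0) : x = 1 := by
  have := h.fg
  obtain ⟨φ, hφ⟩ := h.univ (ZMod 2) 1
  have hφ' : ∀ g i j, φ ((rO ρ g).1 i j) = (1 : Matrix (Fin 2) (Fin 2) (ZMod 2)) i j := hφ
  obtain ⟨g, hg⟩ := exists_dual' h.ab
  have h1 : rO ρ x = 1 := by
    refine eq_one_of_trace (m := mI ρ φ) (ρ := rO ρ) (g := g) (fun k => fin_quot k) krull ?_ hg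
      (gr h φ hφ' g hg) x ?_
    · intro x i j
      rw [mem_mI, map_sub, hφ']
      have := one_map φ.toRingHom i j
      change φ ((1 : Matrix (Fin 2) (Fin 2) (OO 2 ρ)) i j) = _ at this
      rw [this, sub_self]
    · apply Subtype.ext
      rw [Matrix.trace_fin_two] at hx
      exact hx
  exact h.inj (by rw [rO_eq_one h1, map_one])

end gr

end Pool.Agent.FrTop
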