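import Pool.Agent.Lib.MP_305fdd_al.Fr.Top.Fac2

/-!
# MP_305fdd_al, F_r project, TOP: free factors stay in the class (`D_fac`)
-/

set_option autoImplicit false

namespace Pool.Agent.FrTop

open Matrix Pool.Agent.FrDiv Pool.Agent.FrN Pool.Agent.FrAsm

section fd

variable {Γ : Type} [Group Γ] {A C : Subgroup Γ}

theorem fd_symm (h : FD Γ A C) : FD Γ C A := by
  refine ⟨by rw [sup_comm]; exact h.gen, fun R _ _ c a => ?_⟩
  obtain ⟨r, h1, h2⟩ := h.ext R a c
  exact ⟨r, h2, h1⟩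

theorem fd_uniq (h : FD Γ A C) {Q : Type} [Group Q] (r s : Γ →* Q) (ha : ∀ x : A, r x = s x)
    (hc : ∀ x : C, r x = s x) : r = s := by
  have h1 : (⊤ : Subgroup Γ) ≤ r.eqLocus s := by
    rw [← h.gen, sup_le_iff]
    exact ⟨fun x hx => ha ⟨x, hx⟩, fun x hx => hc ⟨x, hx⟩⟩
  exact MonoidHom.ext fun x => h1 (Subgroup.mem_top x)

/-- the image of `Γ` is generated by the images of the factors -/
theorem fd_range (h : FD Γ A C) {Q : Type} [Group Q] (r : Γ →* Q) (H : Subgroup Q)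
    (ha : ∀ x : A, r x ∈ H) (hc : ∀ x : C, r x ∈ H) (x : Γ) : r x ∈ H := by
  have h1 : (⊤ : Subgroup Γ) ≤ H.comap r := by
    rw [← h.gen, sup_le_iff]
    exact ⟨fun x hx => ha ⟨x, hx⟩, fun x hx => hc ⟨x, hx⟩⟩
  exact h1 (Subgroup.mem_top x)

/-- unipotent matrices -/
def uni : Multiplicative (ZMod 2) →* SpecialLinearGroup (Fin 2) (ZMod 2) where
  toFun x := ⟨!![1, x.toAdd; 0, 1], by rw [Matrix.det_fin_two_of]; ring⟩
  map_one' := by
    apply Subtype.ext
    change !![(1 : ZMod 2), 0; 0, 1] = 1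
    exact Matrix.one_fin_two.symm
  map_mul' x y := by
    apply Subtype.ext
    change !![(1 : ZMod 2), x.toAdd + y.toAdd; 0, 1] =
      !![(1 : ZMod 2), x.toAdd; 0, 1] * !![(1 : ZMod 2), y.toAdd; 0, 1]
    rw [Matrix.mul_fin_two]
    simp [add_comm]

theorem uni_inj : Function.Injective uni := by
  intro x y h
  have h1 : (uni x).1 0 1 = (uni y).1 0 1 := by rw [h]
  exact Multiplicative.toAdd.injective h1

theorem fd_char (h : FD Γ A C) (a : A →* Multiplicative (ZMod 2))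
    (c : C →* Multiplicative (ZMod 2)) : ∃ r : Γ →* Multiplicative (ZMod 2),
    (∀ x : A, r x = a x) ∧ ∀ x : C, r x = c x := by
  obtain ⟨r, h1, h2⟩ := h.ext (ZMod 2) (uni.comp a) (uni.comp c)
  have hr : ∀ x, r x ∈ uni.range := fd_range h r uni.range (fun x => ⟨a x, (h1 x).symm⟩)
    (fun x => ⟨c x, (h2 x).symm⟩)
  let e := MonoidHom.ofInjective uni_inj
  refine ⟨e.symm.toMonoidHom.comp (r.codRestrict uni.range hr), fun x => ?_, fun x => ?_⟩
  · change e.symm ⟨r x, hr x⟩ = a x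
    rw [MulEquiv.symm_apply_eq]
    exact Subtype.ext (h1 x)
  · change e.symm ⟨r x, hr x⟩ = c x
    rw [MulEquiv.symm_apply_eq]
    exact Subtype.ext (h2 x)

theorem fd_card (h : FD Γ A C) : Nat.card (Γ →* Multiplicative (ZMod 2)) =
    Nat.card (A →* Multiplicative (ZMod 2)) * Nat.card (C →* Multiplicative (ZMod 2)) := by
  rw [← Nat.card_prod]
  refine Nat.card_eq_of_bijective (fun r => (r.comp A.subtype, r.comp C.subtype)) ⟨?_, ?_⟩
  · intro r s hrs
    rw [Prod.mk.injEq] at hrs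
    exact fd_uniq h r s (fun x => DFunLike.congr_fun hrs.1 x) (fun x => DFunLike.congr_fun hrs.2 x)
  · rintro ⟨a, c⟩
    obtain ⟨r, h1, h2⟩ := fd_char h a c
    exact ⟨r, Prod.ext (MonoidHom.ext h1) (MonoidHom.ext h2)⟩

end fd

section main

variable {Γ F : Type} [Group Γ] [Field F] [Algebra (ZMod 2) F] {b : ℕ}
  {ρ : Γ →* SpecialLinearGroup (Fin 2) F} {A C : Subgroup Γ}

theorem fd_fg (h : Uv Γ F ρ) (hd : FD Γ A C) : Group.FG A := by
  have := h.fg
  obtain ⟨r, h1, h2⟩ := hd.ext F (ρ.comp A.subtype) 1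
  have hinj : Function.Injective (ρ.comp A.subtype) := fun x y hxy => Subtype.ext (h.inj hxy)
  have hr : ∀ x, r x ∈ (ρ.comp A.subtype).range := fd_range hd r _ (fun x => ⟨x, (h1 x).symm⟩)
    (fun x => ⟨1, by rw [h2, map_one]; rfl⟩)
  let e := MonoidHom.ofInjective hinj
  let f : Γ →* A := e.symm.toMonoidHom.comp (r.codRestrict _ hr)
  have hf : Function.Surjective f := by
    intro a
    refine ⟨a, ?_⟩
    change e.symm ⟨r a, hr a⟩ = a
    rw [MulEquiv.symm_apply_eq]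
    exact Subtype.ext (h1 a)
  exact Group.fg_of_surjective hf

theorem OO_comp_le : OO 2 (ρ.comp A.subtype) ≤ OO 2 ρ := by
  refine Algebra.adjoin_le ?_
  rintro _ ⟨g, i, j, rfl⟩
  exact mem_OO ρ g i j

theorem fd_univ (h : Uv Γ F ρ) (hd : FD Γ A C) (R : Type) [CommRing R] [Algebra (ZMod 2) R]
    (r : A →* SpecialLinearGroup (Fin 2) R) :
    ∃ φ : OO 2 (ρ.comp A.subtype) →ₐ[ZMod 2] R, ∀ g i j,
      φ ⟨((ρ.comp A.subtype) g).1 i j, mem_OO (ρ.comp A.subtype) g i j⟩ = (r g).1 i j := by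
  obtain ⟨s, h1, -⟩ := hd.ext R r 1
  obtain ⟨φ, hφ⟩ := h.univ R s
  refine ⟨φ.comp (Subalgebra.inclusion OO_comp_le), fun g i j => ?_⟩
  rw [← h1 g]
  exact hφ g i j

theorem fd_sm {b₁ b₂ : ℕ} (hd : FD Γ A C)
    (sm : ∀ (R : Type) [CommRing R] [Finite R] [Algebra (ZMod 2) R] (I : Ideal R), I ^ 2 = ⊥ →
      ∀ r : Γ →* SpecialLinearGroup (Fin 2) (R ⧸ I),
      Nat.card {s : Γ →* SpecialLinearGroup (Fin 2) R //
        (SpecialLinearGroup.map (Ideal.Quotient.mk I)).comp s = r} = Nat.card I ^ (3 * (b₁ + b₂)))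
    (hC : Nat.card (C →* Multiplicative (ZMod 2)) = 2 ^ b₂)
    (R : Type) [CommRing R] [Finite R] [Algebra (ZMod 2) R] (I : Ideal R) (hI : I ^ 2 = ⊥)
    (r : A →* SpecialLinearGroup (Fin 2) (R ⧸ I)) :
    Nat.card {s : A →* SpecialLinearGroup (Fin 2) R //
        (SpecialLinearGroup.map (Ideal.Quotient.mk I)).comp s = r} = Nat.card I ^ (3 * b₁) := by
  have hI2 : ∀ a ∈ I, ∀ b ∈ I, a * b = 0 := by
    intro a ha b hb
    have : a * b ∈ I ^ 2 := by
      rw [pow_two]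
      exact Ideal.mul_mem_mul ha hb
    rw [hI] at this
    exact this
  obtain ⟨r₀, h1, h2⟩ := hd.ext (R ⧸ I) r 1
  have hL1 : Nat.card (L1 C I) = Nat.card I ^ (3 * b₂) := card_L1 I hI2 hC
  have hs := sm R I hI r₀
  let X := {s : Γ →* SpecialLinearGroup (Fin 2) R //
        (SpecialLinearGroup.map (Ideal.Quotient.mk I)).comp s = r₀}
  let Y := {s : A →* SpecialLinearGroup (Fin 2) R //
        (SpecialLinearGroup.map (Ideal.Quotient.mk I)).comp s = r}
  let f : X → Y × L1 C I := fun s =>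
    (⟨s.1.comp A.subtype, by
      apply MonoidHom.ext
      intro x
      rw [← h1 x]
      exact DFunLike.congr_fun s.2 (x : Γ)⟩,
     ⟨s.1.comp C.subtype, by
      apply MonoidHom.ext
      intro x
      rw [← h2 x]
      exact DFunLike.congr_fun s.2 (x : Γ)⟩)
  have hf : Function.Bijective f := by
    constructor
    · intro s s' hss
      apply Subtype.ext
      have e1 := congrArg (fun p => p.1.1) hss
      have e2 := congrArg (fun p => p.2.1) hss
      exact fd_uniq hd s.1 s'.1 (fun x => DFunLike.congr_fun e1 x)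
        (fun x => DFunLike.congr_fun e2 x)
    · rintro ⟨a, c⟩
      obtain ⟨s, e1, e2⟩ := hd.ext R a.1 c.1
      refine ⟨⟨s, ?_⟩, Prod.ext (Subtype.ext (MonoidHom.ext e1)) (Subtype.ext (MonoidHom.ext e2))⟩
      refine fd_uniq hd _ _ (fun x => ?_) (fun x => ?_)
      · rw [h1, MonoidHom.comp_apply, e1]
        exact DFunLike.congr_fun a.2 x
      · rw [h2, MonoidHom.comp_apply, e2]
        exact DFunLike.congr_fun c.2 x
  have hcard : Nat.card X = Nat.card Y * Nat.card (L1 C I) := by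
    rw [← Nat.card_prod]
    exact Nat.card_eq_of_bijective f hf
  have hX : Nat.card X = Nat.card I ^ (3 * (b₁ + b₂)) := hs
  rw [hX, hL1, mul_add, pow_add] at hcard
  have hpos : 0 < Nat.card I ^ (3 * b₂) := by
    have : 0 < Nat.card I := Nat.card_pos
    positivity
  exact (Nat.eq_of_mul_eq_mul_right hpos hcard).symm

end main

/-- `D_fac` -/
theorem p_fac : D_fac := by
  rintro b Γ _ A C ⟨F, _, _, ρ, h⟩ hd
  have hcard := fd_card hd
  rw [h.ab] at hcard
  obtain ⟨b₁, -, h1⟩ := (Nat.dvd_prime_pow Nat.prime_two).1 (Dvd.intro _ hcard.symm)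
  obtain ⟨b₂, -, h2⟩ := (Nat.dvd_prime_pow Nat.prime_two).1 (Dvd.intro_left _ hcard.symm)
  rw [h1, h2, ← pow_add] at hcard
  have hb : b₁ + b₂ = b := (Nat.pow_right_injective le_rfl hcard).symm
  subst hb
  refine ⟨b₁, b₂, rfl, ?_, ?_⟩
  · exact ⟨_, _, _, _, inCls_of (ρ.comp A.subtype) (fd_fg h.toUv hd)
      (fun x y hxy => Subtype.ext (h.inj hxy)) (fun R _ _ r => fd_univ h.toUv hd R r) h1
      (fun R _ _ _ I hI r => fd_sm hd h.sm h2 R I hI r)⟩
  · have hd' := fd_symm hd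
    have sm' := h.sm
    rw [add_comm] at sm'
    exact ⟨_, _, _, _, inCls_of (ρ.comp C.subtype) (fd_fg h.toUv hd')
      (fun x y hxy => Subtype.ext (h.inj hxy)) (fun R _ _ r => fd_univ h.toUv hd' R r) h2
      (fun R _ _ _ I hI r => fd_sm hd' sm' h1 R I hI r)⟩

end Pool.Agent.FrTop
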