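import Pool.Agent.Lib.MP_305fdd_al.Fr.Top.Mk

/-!
# MP_305fdd_al, F_r project, TOP: the number of lifts of the trivial representation
-/

set_option autoImplicit false

namespace Pool.Agent.FrTop

open Matrix Pool.Agent.FrDiv Pool.Agent.FrN Pool.Agent.FrAsm

section mat

variable {R : Type} [CommRing R] (I : Ideal R) (hI : ∀ a ∈ I, ∀ b ∈ I, a * b = 0)

/-- an element of the kernel of reduction -/
def Nm (a b c : R) : Matrix (Fin 2) (Fin 2) R := !![1 + a, b; c, 1 - a]

include hI in
theorem Nm_det {a b c : R} (ha : a ∈ I) (hb : b ∈ I) (hc : c ∈ I) : (Nm a b c).det = 1 := by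
  rw [Nm, Matrix.det_fin_two_of]
  linear_combination -(hI a ha a ha) - hI b hb c hc

include hI in
theorem Nm_mul {a b c a' b' c' : R} (ha : a ∈ I) (hb : b ∈ I) (hc : c ∈ I) (ha' : a' ∈ I)
    (hb' : b' ∈ I) (hc' : c' ∈ I) : Nm a b c * Nm a' b' c' = Nm (a + a') (b + b') (c + c') := by
  have h1 := hI a ha a' ha'
  have h2 := hI b hb c' hc'
  have h3 := hI a ha b' hb'
  have h4 := hI b hb a' ha'
  have h5 := hI c hc a' ha'
  have h6 := hI a ha c' hc'
  have h7 := hI c hc b' hb'
  ext i j
  rw [Matrix.mul_apply, Fin.sum_univ_two]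
  fin_cases i <;> fin_cases j
  · change (1 + a) * (1 + a') + b * c' = 1 + (a + a')
    linear_combination h1 + h2
  · change (1 + a) * b' + b * (1 - a') = b + b'
    linear_combination h3 - h4
  · change c * (1 + a') + (1 - a) * c' = c + c'
    linear_combination h5 - h6
  · change c * b' + (1 - a) * (1 - a') = 1 - (a + a')
    linear_combination h7 + h1

theorem Nm_zero : Nm (0 : R) 0 0 = 1 := by
  ext i j
  fin_cases i <;> fin_cases j
  · change (1 : R) + 0 = 1
    rw [add_zero]
  · rfl
  · rfl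
  · change (1 : R) - 0 = 1
    rw [sub_zero]

end mat

end Pool.Agent.FrTop
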