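import Pool.Agent.Lib.MP_305fdd_al.Fr.Top.Fac

/-!
# MP_305fdd_al, F_r project, TOP: the number of lifts of the trivial representation
-/

set_option autoImplicit false

namespace Pool.Agent.FrTop

open Matrix Pool.Agent.FrDiv Pool.Agent.FrN Pool.Agent.FrAsm

section vec

variable {C : Type} [Group C]

/-- coordinates of a homomorphism to a vector space -/
noncomputable def coords {V : Type} [AddCommGroup V] [Module (ZMod 2) V] {n : ℕ}
    (B : Module.Basis (Fin n) (ZMod 2) V) :
    (Additive C →+ V) ≃ (Fin n → (Additive C →+ ZMod 2)) where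
  toFun f i := (B.coord i).toAddMonoidHom.comp f
  invFun f :=
    { toFun := fun c => B.equivFun.symm fun i => f i c
      map_zero' := by
        rw [← map_zero B.equivFun.symm]
        congr 1
        funext i
        exact (f i).map_zero
      map_add' := fun x y => by
        rw [← map_add B.equivFun.symm]
        congr 1
        funext i
        exact (f i).map_add x y }
  left_inv f := by
    ext c
    change B.equivFun.symm (fun i => B.coord i (f c)) = f c
    rw [LinearEquiv.symm_apply_eq]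
    rfl
  right_inv f := by
    funext i
    ext c
    change B.equivFun (B.equivFun.symm fun i => f i c) i = f i c
    rw [LinearEquiv.apply_symm_apply]

/-- characters with values in a vector space over the field with two elements -/
theorem card_hom_vec {V : Type} [AddCommGroup V] [Module (ZMod 2) V] [Finite V] {b : ℕ}
    (hb : Nat.card (C →* Multiplicative (ZMod 2)) = 2 ^ b) :
    Nat.card (Additive C →+ V) = Nat.card V ^ b := by
  have e1 : (C →* Multiplicative (ZMod 2)) ≃ (Additive C →+ ZMod 2) := MonoidHom.toAdditiveLeft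
  have hb' : Nat.card (Additive C →+ ZMod 2) = 2 ^ b := by rw [← Nat.card_congr e1, hb]
  have hfin : Module.Finite (ZMod 2) V := Module.Finite.of_finite
  have B := Module.finBasis (ZMod 2) V
  have hV : Nat.card V = 2 ^ (Module.finrank (ZMod 2) V) := by
    rw [Nat.card_congr B.equivFun.toEquiv, Nat.card_fun, Nat.card_zmod, Nat.card_fin]
  rw [Nat.card_congr (coords B), Nat.card_fun, hb', Nat.card_fin, hV, ← pow_mul, ← pow_mul, mul_comm]

end vec

section lift1

variable {C : Type} [Group C] {R : Type} [CommRing R] (I : Ideal R)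
  (hI : ∀ a ∈ I, ∀ b ∈ I, a * b = 0)

/-- the lifts of the trivial representation -/
def L1 (C : Type) [Group C] {R : Type} [CommRing R] (I : Ideal R) : Type :=
  {s : C →* SpecialLinearGroup (Fin 2) R //
    (SpecialLinearGroup.map (Ideal.Quotient.mk I)).comp s = 1}

theorem L1_mem (s : L1 C I) (c : C) (i j : Fin 2) :
    (s.1 c).1 i j - (1 : Matrix (Fin 2) (Fin 2) R) i j ∈ I := by
  rw [← Ideal.Quotient.eq, one_map]
  exact congrFun (congrFun (congrArg Subtype.val (DFunLike.congr_fun s.2 c)) i) j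

include hI in
theorem L1_add (s : L1 C I) (c d : C) (i j : Fin 2) :
    (s.1 (c * d)).1 i j - (1 : Matrix (Fin 2) (Fin 2) R) i j =
      ((s.1 c).1 i j - (1 : Matrix (Fin 2) (Fin 2) R) i j) +
      ((s.1 d).1 i j - (1 : Matrix (Fin 2) (Fin 2) R) i j) := by
  have h1 : (s.1 (c * d)).1 = (s.1 c).1 + (s.1 d).1 - 1 + ((s.1 c).1 - 1) * ((s.1 d).1 - 1) := by
    rw [map_mul]
    change (s.1 c).1 * (s.1 d).1 = _
    rw [sub_mul, mul_sub, one_mul, mul_one]
    abel
  have h2 : (((s.1 c).1 - 1) * ((s.1 d).1 - 1)) i j = 0 := by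
    rw [Matrix.mul_apply]
    exact Finset.sum_eq_zero fun k _ => hI _ (L1_mem I s c i k) _ (L1_mem I s d k j)
  rw [h1, Matrix.add_apply, h2, Matrix.sub_apply, Matrix.add_apply]
  ring

include hI in
theorem L1_tr (s : L1 C I) (c : C) : (s.1 c).1 1 1 = 1 - ((s.1 c).1 0 0 - 1) := by
  have h1 := (s.1 c).2
  rw [Matrix.det_fin_two] at h1
  have h2 : (s.1 c).1 0 1 * (s.1 c).1 1 0 = 0 := by
    have e1 := L1_mem I s c 0 1
    have e2 := L1_mem I s c 1 0
    rw [Matrix.one_apply_ne (by decide), sub_zero] at e1 e2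
    exact hI _ e1 _ e2
  have h3 : ((s.1 c).1 0 0 - 1) * ((s.1 c).1 1 1 - 1) = 0 := by
    have e1 := L1_mem I s c 0 0
    have e2 := L1_mem I s c 1 1
    rw [Matrix.one_apply_eq] at e1 e2
    exact hI _ e1 _ e2
  linear_combination h1 + h2 - h3

/-- an entry as a character -/
def ent (s : L1 C I) (i j : Fin 2) : Additive C →+ I where
  toFun c := ⟨(s.1 c.toMul).1 i j - (1 : Matrix (Fin 2) (Fin 2) R) i j, L1_mem I s _ _ _⟩
  map_zero' := by
    apply Subtype.ext
    change (s.1 1).1 i j - (1 : Matrix (Fin 2) (Fin 2) R) i j = 0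
    rw [map_one]
    exact sub_self _
  map_add' x y := Subtype.ext (L1_add I hI s _ _ _ _)

/-- the representation with given entries -/
def mkR (f : Fin 3 → (Additive C →+ I)) : C →* SpecialLinearGroup (Fin 2) R where
  toFun c := ⟨Nm (f 0 (Additive.ofMul c) : R) (f 1 (Additive.ofMul c) : R)
    (f 2 (Additive.ofMul c) : R), Nm_det I hI (f 0 _).2 (f 1 _).2 (f 2 _).2⟩
  map_one' := by
    apply Subtype.ext
    change Nm _ _ _ = 1
    rw [ofMul_one, map_zero, map_zero, map_zero]
    exact Nm_zero
  map_mul' x y := by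
    apply Subtype.ext
    change Nm _ _ _ = Nm _ _ _ * Nm _ _ _
    rw [Nm_mul I hI (f 0 _).2 (f 1 _).2 (f 2 _).2 (f 0 _).2 (f 1 _).2 (f 2 _).2, ofMul_mul,
      map_add, map_add, map_add]
    rfl

theorem mkR_mem (f : Fin 3 → (Additive C →+ I)) :
    (SpecialLinearGroup.map (Ideal.Quotient.mk I)).comp (mkR I hI f) = 1 := by
  apply MonoidHom.ext
  intro c
  apply Subtype.ext
  have h0 : ∀ k, Ideal.Quotient.mk I (f k (Additive.ofMul c) : R) = 0 := fun k =>
    Ideal.Quotient.eq_zero_iff_mem.2 (f k (Additive.ofMul c)).2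
  apply Matrix.ext
  intro i j
  fin_cases i <;> fin_cases j
  · change Ideal.Quotient.mk I (1 + (f 0 (Additive.ofMul c) : R)) = 1
    rw [map_add, h0, map_one, add_zero]
  · exact h0 1
  · exact h0 2
  · change Ideal.Quotient.mk I (1 - (f 0 (Additive.ofMul c) : R)) = 1
    rw [map_sub, h0, map_one, sub_zero]

/-- the bijection -/
def eqL1 : L1 C I ≃ (Fin 3 → (Additive C →+ I)) where
  toFun s := ![ent I hI s 0 0, ent I hI s 0 1, ent I hI s 1 0]
  invFun f := ⟨mkR I hI f, mkR_mem I hI f⟩
  left_inv s := by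
    apply Subtype.ext
    apply MonoidHom.ext
    intro c
    apply Subtype.ext
    apply Matrix.ext
    intro i j
    fin_cases i <;> fin_cases j
    · change 1 + ((s.1 c).1 0 0 - (1 : Matrix (Fin 2) (Fin 2) R) 0 0) = (s.1 c).1 0 0
      rw [Matrix.one_apply_eq]
      ring
    · change (s.1 c).1 0 1 - (1 : Matrix (Fin 2) (Fin 2) R) 0 1 = (s.1 c).1 0 1
      rw [Matrix.one_apply_ne (by decide), sub_zero]
    · change (s.1 c).1 1 0 - (1 : Matrix (Fin 2) (Fin 2) R) 1 0 = (s.1 c).1 1 0
      rw [Matrix.one_apply_ne (by decide), sub_zero]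
    · change 1 - ((s.1 c).1 0 0 - (1 : Matrix (Fin 2) (Fin 2) R) 0 0) = (s.1 c).1 1 1
      rw [Matrix.one_apply_eq]
      exact (L1_tr I hI s c).symm
  right_inv f := by
    funext k
    ext c
    fin_cases k
    · change 1 + (f 0 c : R) - (1 : Matrix (Fin 2) (Fin 2) R) 0 0 = (f 0 c : R)
      rw [Matrix.one_apply_eq]
      ring
    · change (f 1 c : R) - (1 : Matrix (Fin 2) (Fin 2) R) 0 1 = (f 1 c : R)
      rw [Matrix.one_apply_ne (by decide), sub_zero]
    · change (f 2 c : R) - (1 : Matrix (Fin 2) (Fin 2) R) 1 0 = (f 2 c : R)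
      rw [Matrix.one_apply_ne (by decide), sub_zero]

include hI in
/-- the number of the lifts of the trivial representation along a square zero ideal -/
theorem card_L1 [Finite R] [Algebra (ZMod 2) R] {b : ℕ}
    (hb : Nat.card (C →* Multiplicative (ZMod 2)) = 2 ^ b) :
    Nat.card (L1 C I) = Nat.card I ^ (3 * b) := by
  have hf : Finite I := inferInstance
  rw [Nat.card_congr (eqL1 I hI), Nat.card_fun, Nat.card_fin, card_hom_vec hb, ← pow_mul,
    mul_comm b 3]

end lift1

end Pool.Agent.FrTop
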