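import Mathlib

/-!
# MP_305fdd, F_r, block TOP: a faithful representation of the free group in characteristic two
-/

set_option autoImplicit false

namespace Pool.Agent.FrTop

open Matrix Polynomial

section idem

variable {K : Type} [Field K]

/-- the idempotent with image `(x, 1)` and kernel `(y, 1)` -/
def E (x y : K) : Matrix (Fin 2) (Fin 2) K := (x - y)⁻¹ • !![x, -(x * y); 1, -y]

/-- `t E(x,y) + t⁻¹ E(y,x)` -/
def G (t x y : K) : Matrix (Fin 2) (Fin 2) K := t • E x y + t⁻¹ • E y x

theorem det_G {t x y : K} (ht : t ≠ 0) (hxy : x ≠ y) : (G t x y).det = 1 := by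
  have h : x - y ≠ 0 := sub_ne_zero.mpr hxy
  have h' : y - x ≠ 0 := sub_ne_zero.mpr hxy.symm
  have e : (y - x)⁻¹ = -(x - y)⁻¹ := by rw [← neg_sub x y, inv_neg]
  rw [G, E, E, e, Matrix.det_fin_two]
  simp only [Matrix.add_apply, Matrix.smul_apply, Matrix.of_apply, Matrix.cons_val', Matrix.cons_val_zero,
    Matrix.cons_val_fin_one, Matrix.cons_val_one, smul_eq_mul]
  field_simp
  ring

theorem G_mul_G {t x y : K} (ht : t ≠ 0) (hxy : x ≠ y) : G t x y * G t y x = 1 := by
  have h : x - y ≠ 0 := sub_ne_zero.mpr hxy
  have e : (y - x)⁻¹ = -(x - y)⁻¹ := by rw [← neg_sub x y, inv_neg]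
  rw [G, G, E, E, e]
  ext i j
  fin_cases i <;> fin_cases j <;>
  · simp [Matrix.mul_apply, Fin.sum_univ_two]
    field_simp
    ring

/-- product of the idempotents -/
theorem prod_E : ∀ (l : List (K × K)) (a : K × K), List.IsChain (fun p q => p.2 ≠ q.1) (a :: l) →
    (∀ p ∈ a :: l, p.1 ≠ p.2) →
    ∃ c y : K, c ≠ 0 ∧ ((a :: l).map fun p => E p.1 p.2).prod = c • !![a.1, -(a.1 * y); 1, -y] := by
  intro l
  induction l with
  | nil =>
    intro a _ h
    refine ⟨(a.1 - a.2)⁻¹, a.2, inv_ne_zero (sub_ne_zero.mpr (h a (by simp))), ?_⟩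
    simp [E]
  | cons b l ih =>
    intro a hc h
    rw [List.isChain_cons_cons] at hc
    obtain ⟨c, y, hc0, e⟩ := ih b hc.2 fun p hp => h p (List.mem_cons_of_mem _ hp)
    refine ⟨(a.1 - a.2)⁻¹ * c * (b.1 - a.2), y, ?_, ?_⟩
    · refine mul_ne_zero (mul_ne_zero (inv_ne_zero (sub_ne_zero.mpr (h a (by simp)))) hc0)
        (sub_ne_zero.mpr hc.1.symm)
    · rw [List.map_cons, List.prod_cons, e, E]
      ext i j
      fin_cases i <;> fin_cases j <;>
      · simp [Matrix.mul_apply, Fin.sum_univ_two]
        ring

end idem

variable {K : Type} [Field K] {n : ℕ}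

/-- the polynomial matrix `X² E(x,y) + E(y,x)` -/
noncomputable def H (x y : K) : Matrix (Fin 2) (Fin 2) K[X] :=
  (X ^ 2 : K[X]) • (E x y).map C + (E y x).map C

/-- product of the `H`: the leading coefficient -/
theorem coeff_prod_H : ∀ (l : List (K × K)) (i j : Fin 2),
    ((l.map fun p => H p.1 p.2).prod i j).coeff (2 * l.length) = (l.map fun p => E p.1 p.2).prod i j ∧
    ((l.map fun p => H p.1 p.2).prod i j).natDegree ≤ 2 * l.length := by
  intro l
  induction l with
  | nil =>
    intro i j
    by_cases h : i = j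
    · subst h; simp
    · simp [Matrix.one_apply_ne h]
  | cons a l ih =>
    intro i j
    rw [List.map_cons, List.prod_cons, List.map_cons, List.prod_cons, List.length_cons]
    rw [Matrix.mul_apply, Matrix.mul_apply, Polynomial.finsetSum_coeff]
    have hH : ∀ k, H a.1 a.2 i k = X ^ 2 * C (E a.1 a.2 i k) + C (E a.2 a.1 i k) := fun k => by
      simp [H]
    constructor
    · refine Finset.sum_congr rfl fun k _ => ?_
      rw [hH, add_mul, coeff_add, mul_assoc, show 2 * (l.length + 1) = 2 * l.length + 2 by ring,
        Polynomial.coeff_X_pow_mul, Polynomial.coeff_C_mul, Polynomial.coeff_C_mul, (ih k j).1,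
        Polynomial.coeff_eq_zero_of_natDegree_lt (lt_of_le_of_lt (ih k j).2 (by omega)), mul_zero,
        add_zero]
    · refine Polynomial.natDegree_sum_le_of_forall_le _ _ fun k _ => ?_
      rw [hH]
      refine Polynomial.natDegree_mul_le.trans ?_
      have h1 : (X ^ 2 * C (E a.1 a.2 i k) + C (E a.2 a.1 i k) : K[X]).natDegree ≤ 2 := by
        refine Polynomial.natDegree_add_le_of_degree_le ?_ ?_
        · refine Polynomial.natDegree_mul_le.trans ?_
          rw [Polynomial.natDegree_C, Polynomial.natDegree_X_pow]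
        · rw [Polynomial.natDegree_C]
          exact Nat.zero_le _
      have h2 := (ih k j).2
      omega

/-- the generators -/
noncomputable def gen (α : Fin n × Bool → K) (hα : Function.Injective α) (i : Fin n) :
    SpecialLinearGroup (Fin 2) (FractionRing K[X]) :=
  ⟨G (algebraMap K[X] (FractionRing K[X]) X) (algebraMap K[X] (FractionRing K[X]) (C (α (i, true))))
    (algebraMap K[X] (FractionRing K[X]) (C (α (i, false)))), det_G (by
      rw [Ne, IsFractionRing.to_map_eq_zero_iff]
      exact X_ne_zero) (fun h => by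
      have h1 := IsFractionRing.injective K[X] (FractionRing K[X]) h
      have h2 := hα (C_injective h1)
      simp at h2)⟩

theorem E_map {K L : Type} [Field K] [Field L] (f : K →+* L) (x y : K) :
    (E x y).map f = E (f x) (f y) := by
  ext i j
  fin_cases i <;> fin_cases j <;> simp [E]

theorem letter (α : Fin n × Bool → K) (hα : Function.Injective α) (p : Fin n × Bool) :
    (algebraMap K[X] (FractionRing K[X]) X) •
      ((cond p.2 (gen α hα p.1) (gen α hα p.1)⁻¹ : SpecialLinearGroup (Fin 2) (FractionRing K[X])) :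
        Matrix (Fin 2) (Fin 2) (FractionRing K[X])) =
      (H (α p) (α (p.1, !p.2))).map (algebraMap K[X] (FractionRing K[X])) := by
  have ht : algebraMap K[X] (FractionRing K[X]) X ≠ 0 := by
    rw [Ne, IsFractionRing.to_map_eq_zero_iff]
    exact X_ne_zero
  have hxy : ∀ i, algebraMap K[X] (FractionRing K[X]) (C (α (i, true))) ≠
      algebraMap K[X] (FractionRing K[X]) (C (α (i, false))) := fun i h => by
    have h1 := IsFractionRing.injective K[X] (FractionRing K[X]) h
    have h2 := hα (C_injective h1)
    simp at h2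
  have key : ∀ x y : K, (algebraMap K[X] (FractionRing K[X]) X) •
      G (algebraMap K[X] (FractionRing K[X]) X) (algebraMap K[X] (FractionRing K[X]) (C x))
        (algebraMap K[X] (FractionRing K[X]) (C y)) =
      (H x y).map (algebraMap K[X] (FractionRing K[X])) := by
    intro x y
    have e1 : ∀ x y : K, E (algebraMap K[X] (FractionRing K[X]) (C x))
        (algebraMap K[X] (FractionRing K[X]) (C y)) =
        ((E x y).map C).map (algebraMap K[X] (FractionRing K[X])) := by
      intro x y
      rw [Matrix.map_map]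
      exact (E_map ((algebraMap K[X] (FractionRing K[X])).comp C) x y).symm
    rw [G, e1, e1, H]
    ext i j
    simp only [Matrix.smul_apply, Matrix.add_apply, Matrix.map_apply, smul_eq_mul, map_add, map_mul,
      map_pow]
    field_simp
  obtain ⟨i, ε⟩ := p
  cases ε
  · have hinv : (((gen α hα i)⁻¹ : SpecialLinearGroup (Fin 2) (FractionRing K[X])) :
        Matrix (Fin 2) (Fin 2) (FractionRing K[X])) =
        G (algebraMap K[X] (FractionRing K[X]) X) (algebraMap K[X] (FractionRing K[X]) (C (α (i, false))))
          (algebraMap K[X] (FractionRing K[X]) (C (α (i, true)))) := by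
      have h1 : (gen α hα i).1 * G (algebraMap K[X] (FractionRing K[X]) X)
          (algebraMap K[X] (FractionRing K[X]) (C (α (i, false))))
          (algebraMap K[X] (FractionRing K[X]) (C (α (i, true)))) = 1 := G_mul_G ht (hxy i)
      have h2 : ((gen α hα i)⁻¹ : SpecialLinearGroup (Fin 2) (FractionRing K[X])).1 *
          (gen α hα i).1 = 1 := congrArg Subtype.val (inv_mul_cancel (gen α hα i))
      calc ((gen α hα i)⁻¹ : SpecialLinearGroup (Fin 2) (FractionRing K[X])).1
          = ((gen α hα i)⁻¹ : SpecialLinearGroup (Fin 2) (FractionRing K[X])).1 *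
            ((gen α hα i).1 * G (algebraMap K[X] (FractionRing K[X]) X)
          (algebraMap K[X] (FractionRing K[X]) (C (α (i, false))))
          (algebraMap K[X] (FractionRing K[X]) (C (α (i, true))))) := by rw [h1, mul_one]
        _ = _ := by rw [← mul_assoc, h2, one_mul]
    rw [cond_false]
    exact (congrArg (fun M => (algebraMap K[X] (FractionRing K[X]) X) • M) hinv).trans
      (key (α (i, false)) (α (i, true)))
  · exact key (α (i, true)) (α (i, false))

/-- A FAITHFUL REPRESENTATION of the free group over a field of the same characteristic as the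
infinite field `K`. -/
theorem lift_gen_injective (α : Fin n × Bool → K) (hα : Function.Injective α) :
    Function.Injective (FreeGroup.lift (gen α hα)) := by
  rw [injective_iff_map_eq_one]
  intro w hw
  by_contra hne
  have hw' : FreeGroup.lift (gen α hα) (FreeGroup.mk w.toWord) = 1 := by
    rw [FreeGroup.mk_toWord]; exact hw
  have hred : FreeGroup.IsReduced w.toWord := FreeGroup.isReduced_toWord
  have hL : w.toWord ≠ [] := fun h => hne (FreeGroup.toWord_eq_nil_iff.mp h)
  generalize w.toWord = L at hw' hred hL
  rw [FreeGroup.lift_mk] at hw'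
  -- the product of the `H`
  have h1 : ∀ L : List (Fin n × Bool),
      ((L.map fun p => H (α p) (α (p.1, !p.2))).prod).map (algebraMap K[X] (FractionRing K[X])) =
      ((algebraMap K[X] (FractionRing K[X]) X) ^ L.length) •
        ((L.map fun x => cond x.2 (gen α hα x.1) (gen α hα x.1)⁻¹).prod).1 := by
    intro L
    induction L with
    | nil =>
      simp
    | cons p L ih =>
      rw [List.map_cons, List.prod_cons, List.map_cons, List.prod_cons, Matrix.map_mul, ih,
        ← letter α hα p, List.length_cons, Matrix.smul_mul, Matrix.mul_smul, smul_smul,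
        pow_succ']
      rfl
  have h2 := h1 L
  rw [hw'] at h2
  obtain ⟨a, l, rfl⟩ := List.exists_cons_of_ne_nil hL
  have hchain : List.IsChain (fun p q : K × K => p.2 ≠ q.1)
      ((a :: l).map fun p => (α p, α (p.1, !p.2))) := by
    rw [List.isChain_map]
    refine hred.imp fun p q hpq h => ?_
    have h3 := hα h
    have h4 : p.1 = q.1 := by rw [← h3]
    have h5 : (!p.2) = q.2 := by rw [← h3]
    have h6 := hpq h4
    rw [← h6] at h5
    cases hp : p.2 <;> simp [hp] at h5
  have hne' : ∀ p ∈ (a :: l).map (fun p => (α p, α (p.1, !p.2))), p.1 ≠ p.2 := by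
    intro p hp h
    obtain ⟨q, _, rfl⟩ := List.mem_map.mp hp
    have h3 : q = (q.1, !q.2) := hα h
    have h4 : q.2 = !q.2 := congrArg Prod.snd h3
    cases hq : q.2 <;> simp [hq] at h4
  rw [List.map_cons] at hchain hne'
  obtain ⟨c, y, hc, e⟩ := prod_E _ _ hchain hne'
  -- the entry `(1, 0)`
  have h3 := (coeff_prod_H ((a :: l).map fun p => (α p, α (p.1, !p.2))) 1 0).1
  rw [List.map_map, List.map_map, List.length_map] at h3
  have h4 : ((a :: l).map ((fun p : K × K => E p.1 p.2) ∘ fun p => (α p, α (p.1, !p.2)))).prod 1 0 = c := by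
    rw [← List.map_map, List.map_cons, e]
    simp
  rw [h4] at h3
  have h5 : ((a :: l).map ((fun p : K × K => H p.1 p.2) ∘ fun p => (α p, α (p.1, !p.2)))).prod 1 0 = 0 := by
    apply IsFractionRing.injective K[X] (FractionRing K[X])
    have h6 := congrFun (congrFun h2 1) 0
    rw [map_zero]
    refine h6.trans ?_
    simp
  rw [h5, coeff_zero] at h3
  exact hc h3.symm

/-- the free group of finite rank is linear in characteristic two -/
theorem exists_faithful (n : ℕ) : ∃ (R : Type) (_ : CommRing R) (_ : Algebra (ZMod 2) R)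
    (σ : FreeGroup (Fin n) →* SpecialLinearGroup (Fin 2) R), Function.Injective σ := by
  have : Fact (Nat.Prime 2) := ⟨Nat.prime_two⟩
  let K := AlgebraicClosure (ZMod 2)
  have hK : Infinite K := inferInstance
  obtain ⟨e⟩ : Nonempty (Fin n × Bool ↪ K) := by
    have e1 : Fin n × Bool ↪ ℕ := Encodable.encode' (Fin n × Bool)
    exact ⟨e1.trans (Infinite.natEmbedding K)⟩
  exact ⟨FractionRing K[X], inferInstance, inferInstance, FreeGroup.lift (gen e e.injective),
    lift_gen_injective e e.injective⟩

end Pool.Agent.FrTop
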