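import Pool.Agent.Lib.MP_305fdd_al.Fr.Top.Ab

/-!
# MP_305fdd_al, F_r project, TOP: a constructor for the class `Cls`

The transcendence degree follows from the smoothness, the number of characters and the existence of
the trivial point.
-/

set_option autoImplicit false

namespace Pool.Agent.FrTop

open Matrix Pool.Agent.FrDiv Pool.Agent.FrN Pool.Agent.FrAsm

section lower

open MvPolynomial

variable {A : Type} [CommRing A] [Algebra (ZMod 2) A] (m : Ideal A)
variable {Γ : Type} [Group Γ] (ρ : Γ →* SpecialLinearGroup (Fin 2) A) {b : ℕ} (g : Fin b → Γ)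

/-- the coordinates are algebraically independent -/
theorem algInd (hρ : ∀ x i j, (ρ x).1 i j - (1 : Matrix (Fin 2) (Fin 2) A) i j ∈ m)
    (hgr : Gr m ρ g) : AlgebraicIndependent (ZMod 2) (u ρ g) := by
  rw [algebraicIndependent_iff]
  intro f hf
  have hu := u_mem (m := m) (g := g) hρ
  have key : ∀ n, Low n f := by
    intro n
    refine mem_low hu hgr ?_
    rw [hf]
    exact Ideal.zero_mem _
  ext x
  rw [coeff_zero]
  have := key (x.degree + 1)
  exact this.coeff (Nat.lt_succ_self _)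

end lower

section mk

variable {b : ℕ} {A F : Type} [Group A] [Field F] [Algebra (ZMod 2) F]
    (ρ : A →* SpecialLinearGroup (Fin 2) F)

/-- the representation over the field of fractions of the ring of the entries -/
noncomputable def rF : A →* SpecialLinearGroup (Fin 2) (FractionRing (OO 2 ρ)) :=
  (SpecialLinearGroup.map (algebraMap (OO 2 ρ) (FractionRing (OO 2 ρ)))).comp (rO ρ)

theorem rF_val (g : A) (i j : Fin 2) :
    (rF ρ g).1 i j = algebraMap (OO 2 ρ) (FractionRing (OO 2 ρ)) ((rO ρ g).1 i j) := rfl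

theorem OO_rF : OO 2 (rF ρ) =
    (IsScalarTower.toAlgHom (ZMod 2) (OO 2 ρ) (FractionRing (OO 2 ρ))).range := by
  apply le_antisymm
  · refine Algebra.adjoin_le ?_
    rintro _ ⟨g, i, j, rfl⟩
    exact ⟨(rO ρ g).1 i j, rfl⟩
  · rintro _ ⟨⟨x, hx⟩, rfl⟩
    change algebraMap (OO 2 ρ) (FractionRing (OO 2 ρ)) ⟨x, hx⟩ ∈ OO 2 (rF ρ)
    induction hx using Algebra.adjoin_induction with
    | mem x hx =>
      obtain ⟨g, i, j, rfl⟩ := hx
      exact mem_OO (rF ρ) g i j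
    | algebraMap r =>
      have h1 : (⟨algebraMap (ZMod 2) F r, (OO 2 ρ).algebraMap_mem r⟩ : OO 2 ρ) =
          algebraMap (ZMod 2) (OO 2 ρ) r := rfl
      rw [h1, ← IsScalarTower.algebraMap_apply]
      exact Subalgebra.algebraMap_mem _ _
    | add x y hx hy ih1 ih2 =>
      have h1 : (⟨x + y, (OO 2 ρ).add_mem hx hy⟩ : OO 2 ρ) = ⟨x, hx⟩ + ⟨y, hy⟩ := rfl
      rw [h1, map_add]
      exact add_mem ih1 ih2
    | mul x y hx hy ih1 ih2 =>
      have h1 : (⟨x * y, (OO 2 ρ).mul_mem hx hy⟩ : OO 2 ρ) = ⟨x, hx⟩ * ⟨y, hy⟩ := rfl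
      rw [h1, map_mul]
      exact mul_mem ih1 ih2

theorem rF_inj {g : A} (h : rF ρ g = 1) : rO ρ g = 1 := by
  apply Subtype.ext
  apply Matrix.ext
  intro i j
  apply IsFractionRing.injective (OO 2 ρ) (FractionRing (OO 2 ρ))
  rw [← rF_val, h]
  have : ((1 : SpecialLinearGroup (Fin 2) (OO 2 ρ)).1 i j) =
    (1 : Matrix (Fin 2) (Fin 2) (OO 2 ρ)) i j := rfl
  rw [this, one_map]
  rfl

/-- the map backwards -/
theorem exists_back : ∃ e : OO 2 (rF ρ) →ₐ[ZMod 2] OO 2 ρ,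
    (∀ g i j, e ((rO (rF ρ) g).1 i j) = (rO ρ g).1 i j) ∧ Function.Bijective e := by
  let ι := IsScalarTower.toAlgHom (ZMod 2) (OO 2 ρ) (FractionRing (OO 2 ρ))
  have hι : Function.Injective ι := IsFractionRing.injective (OO 2 ρ) (FractionRing (OO 2 ρ))
  let e0 : OO 2 ρ ≃ₐ[ZMod 2] ι.range := AlgEquiv.ofInjective ι hι
  let e1 : OO 2 (rF ρ) ≃ₐ[ZMod 2] ι.range := Subalgebra.equivOfEq _ _ (OO_rF ρ)
  refine ⟨(e1.trans e0.symm).toAlgHom, fun g i j => ?_, (e1.trans e0.symm).bijective⟩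
  change e0.symm (e1 ((rO (rF ρ) g).1 i j)) = _
  rw [AlgEquiv.symm_apply_eq]
  rfl

theorem trdeg_frac : Algebra.trdeg (ZMod 2) (FractionRing (OO 2 ρ)) =
    Algebra.trdeg (ZMod 2) (OO 2 ρ) := by
  have h := _root_.trdeg_add_eq (R := ZMod 2) (S := OO 2 ρ) (A := FractionRing (OO 2 ρ))
  have h1 : Algebra.trdeg (OO 2 ρ) (FractionRing (OO 2 ρ)) = 0 := by
    have : Algebra.IsAlgebraic (OO 2 ρ) (FractionRing (OO 2 ρ)) :=
      IsLocalization.isAlgebraic _ (nonZeroDivisors (OO 2 ρ))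
    exact _root_.trdeg_eq_zero
  rw [h1, add_zero] at h
  exact h.symm

/-- CONSTRUCTOR for the class: the dimension is automatic. -/
theorem inCls_of (fg : Group.FG A) (inj : Function.Injective ρ)
    (univ : ∀ (R : Type) [CommRing R] [Algebra (ZMod 2) R]
      (r : A →* SpecialLinearGroup (Fin 2) R),
      ∃ φ : OO 2 ρ →ₐ[ZMod 2] R, ∀ g i j, φ ⟨(ρ g).1 i j, mem_OO ρ g i j⟩ = (r g).1 i j)
    (ab : Nat.card (A →* Multiplicative (ZMod 2)) = 2 ^ b)
    (sm : ∀ (R : Type) [CommRing R] [Finite R] [Algebra (ZMod 2) R] (I : Ideal R), I ^ 2 = ⊥ →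
      ∀ r : A →* SpecialLinearGroup (Fin 2) (R ⧸ I),
      Nat.card {s : A →* SpecialLinearGroup (Fin 2) R //
        (SpecialLinearGroup.map (Ideal.Quotient.mk I)).comp s = r} = Nat.card I ^ (3 * b)) :
    Cls b A (FractionRing (OO 2 ρ)) (rF ρ) := by
  have hfin : Finite (A →* Multiplicative (ZMod 2)) :=
    Nat.finite_of_card_ne_zero (by rw [ab]; positivity)
  obtain ⟨φ, hφ⟩ := univ (ZMod 2) 1
  have hφ' : ∀ g i j, φ ((rO ρ g).1 i j) = (1 : Matrix (Fin 2) (Fin 2) (ZMod 2)) i j := hφ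
  have hup : Algebra.trdeg (ZMod 2) (OO 2 ρ) ≤ ((3 * b : ℕ) : Cardinal) :=
    FrX.lemD_field ρ φ.toRingHom (fun a i j => hφ' a i j) b ab.le
  obtain ⟨g, hg⟩ := exists_dual' ab
  have hlow : ((3 * b : ℕ) : Cardinal) ≤ Algebra.trdeg (ZMod 2) (OO 2 ρ) := by
    have h1 := algInd (mI ρ φ) (rO ρ) g (rO_mem hφ') (gr_of univ sm φ hφ' g hg)
    have h2 := h1.cardinalMk_le_trdeg
    rw [Cardinal.mk_fintype, Fintype.card_prod, Fintype.card_fin, Fintype.card_fin, mul_comm] at h2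
    exact h2
  obtain ⟨e, he, -⟩ := exists_back ρ
  refine ⟨⟨fg, ?_, ?_, ?_⟩, ?_, ab, sm⟩
  · rw [injective_iff_map_eq_one]
    intro x hx
    exact (injective_iff_map_eq_one ρ).1 inj x (rO_eq_one (rF_inj ρ hx))
  · intro x
    obtain ⟨a, c, hc, rfl⟩ := IsFractionRing.div_surjective (A := OO 2 ρ) x
    refine ⟨algebraMap _ _ a, ?_, algebraMap _ _ c, ?_, ?_, ?_⟩
    · rw [OO_rF]
      exact ⟨a, rfl⟩
    · rw [OO_rF]
      exact ⟨c, rfl⟩
    · intro h0
      rw [← map_zero (algebraMap (OO 2 ρ) (FractionRing (OO 2 ρ)))] at h0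
      exact nonZeroDivisors.ne_zero hc (IsFractionRing.injective (OO 2 ρ) _ h0)
    · rw [div_mul_cancel₀]
      intro h0
      rw [← map_zero (algebraMap (OO 2 ρ) (FractionRing (OO 2 ρ)))] at h0
      exact nonZeroDivisors.ne_zero hc (IsFractionRing.injective (OO 2 ρ) _ h0)
  · intro R _ _ r
    obtain ⟨ψ, hψ⟩ := univ R r
    refine ⟨ψ.comp e, fun g i j => ?_⟩
    rw [← hψ]
    exact congrArg ψ (he g i j)
  · rw [trdeg_frac]
    have := le_antisymm hup hlow
    rw [this]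
    push_cast
    rfl

end mk

end Pool.Agent.FrTop
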