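import Pool.Agent.Lib.MP_305fdd_al.Fr.Asm.Stm
import Pool.Agent.Lib.MP_305fdd_al.Fr.Top.FreeRep

/-!
# MP_305fdd_al, F_r project, TOP: `D_free`
-/

set_option autoImplicit false

namespace Pool.Agent.FrTop

theorem p_free : FrAsm.D_free := fun r => exists_faithful r

end Pool.Agent.FrTop
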