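import Pool.Agent.Lib.MP_305fdd_al.Fr.Asm.Defs
import Pool.Agent.Lib.MP_305fdd_al.Fr.Div.Main
import Pool.Agent.Lib.MP_305fdd_al.Fr.X.Core

/-!
# MP_305fdd_al, F_r project, TOP: representations over finite local rings

`uniq`: a representation congruent to `1` modulo a nilpotent ideal of a finite ring of characteristic
two is determined by the images of elements which are seen by all characters of order two.
`ext_all`: in the class `Cls b` every tuple of images is possible.
-/

set_option autoImplicit false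

namespace Pool.Agent.FrTop

open Matrix Pool.Agent.FrDiv Pool.Agent.FrN Pool.Agent.FrAsm

variable {Γ : Type} [Group Γ]

/-- the entries of `s x - 1` are in `J` -/
def C1 {R : Type} [CommRing R] (J : Ideal R) (s : Γ →* SpecialLinearGroup (Fin 2) R) : Prop :=
  ∀ x i j, (s x).1 i j - (1 : Matrix (Fin 2) (Fin 2) R) i j ∈ J

theorem two_eq {R : Type} [CommRing R] [Algebra (ZMod 2) R] : (2 : R) = 0 := by
  have h : algebraMap (ZMod 2) R 2 = 2 := map_ofNat _ 2
  rw [← h, show (2 : ZMod 2) = 0 from rfl, map_zero]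

theorem sl_pow_val {R : Type} [CommRing R] (s : SpecialLinearGroup (Fin 2) R) (n : ℕ) :
    (s ^ n).1 = s.1 ^ n := by
  induction n with
  | zero => rfl
  | succ n ih =>
    rw [pow_succ, pow_succ, ← ih]
    rfl

theorem sl_pow {R : Type} [CommRing R] (h2 : (2 : R) = 0) (J : Ideal R) (N : ℕ) (hJ : J ^ N = ⊥)
    (s : SpecialLinearGroup (Fin 2) R)
    (hs : ∀ i j, s.1 i j - (1 : Matrix (Fin 2) (Fin 2) R) i j ∈ J) : s ^ (2 ^ N) = 1 := by
  apply Subtype.ext
  rw [sl_pow_val]
  have h1 : s.1 = 1 + (s.1 - 1) := by abel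
  rw [h1, one_add_pow h2]
  have h3 : (s.1 - 1) ^ 2 ^ N = 0 := by
    ext i j
    have h4 := pow_entries J (s.1 - 1) hs (2 ^ N) i j
    have h5 := Ideal.pow_le_pow_right (I := J) (Nat.lt_two_pow_self (n := N)).le h4
    rw [hJ] at h5
    exact h5
  rw [h3, add_zero]
  rfl

/-- uniqueness -/
theorem uniq {R : Type} [CommRing R] [Finite R] (h2 : (2 : R) = 0) (J : Ideal R) (N : ℕ)
    (hJ : J ^ N = ⊥) {ι : Type} (g : ι → Γ)
    (hg : ∀ χ : Γ →* Multiplicative (ZMod 2), (∀ i, χ (g i) = 1) → χ = 1)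
    (s s' : Γ →* SpecialLinearGroup (Fin 2) R) (hs : C1 J s) (hs' : C1 J s')
    (h : ∀ i, s (g i) = s' (g i)) : s = s' := by
  have hfM : Finite (Matrix (Fin 2) (Fin 2) R) := by
    unfold Matrix
    infer_instance
  have hfS : Finite (SpecialLinearGroup (Fin 2) R) :=
    Finite.of_injective (fun A => A.1) Subtype.val_injective
  let ψ : Γ →* SpecialLinearGroup (Fin 2) R × SpecialLinearGroup (Fin 2) R := s.prod s'
  have hP : IsPGroup 2 ψ.range := by
    rintro ⟨y, x, rfl⟩
    refine ⟨N, ?_⟩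
    apply Subtype.ext
    change (s x, s' x) ^ 2 ^ N = (1, 1)
    rw [Prod.pow_mk, sl_pow h2 J N hJ _ (hs x), sl_pow h2 J N hJ _ (hs' x)]
  have hH : ∀ y ∈ Subgroup.closure (Set.range g), s y = s' y := by
    intro y hy
    have : Subgroup.closure (Set.range g) ≤ s.eqLocus s' := by
      rw [Subgroup.closure_le]
      rintro _ ⟨i, rfl⟩
      exact h i
    exact this hy
  apply MonoidHom.ext
  intro x
  obtain ⟨y, hy, e⟩ := burnside hP ψ.rangeRestrict (MonoidHom.rangeRestrict_surjective ψ)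
    (Subgroup.closure (Set.range g))
    (fun χ hχ => hg χ fun i => hχ _ (Subgroup.subset_closure ⟨i, rfl⟩)) x
  have e1 : (s y, s' y) = (s x, s' x) := congrArg Subtype.val e
  rw [Prod.mk.injEq] at e1
  rw [← e1.1, ← e1.2]
  exact hH y hy

/-- the number of the elements of `SL₂` over a given one is at most `|I| ^ 3` -/
theorem card_fib {R : Type} [CommRing R] [Finite R] (I : Ideal R) (hI : I ^ 2 = ⊥)
    (h : SpecialLinearGroup (Fin 2) (R ⧸ I)) :
    Nat.card {x : SpecialLinearGroup (Fin 2) R //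
      SpecialLinearGroup.map (Ideal.Quotient.mk I) x = h} ≤ Nat.card I ^ 3 := by
  classical
  by_cases hne : Nonempty {x : SpecialLinearGroup (Fin 2) R //
      SpecialLinearGroup.map (Ideal.Quotient.mk I) x = h}
  swap
  · rw [not_nonempty_iff] at hne
    rw [Nat.card_of_isEmpty]
    exact Nat.zero_le _
  obtain ⟨⟨x₀, hx₀⟩⟩ := hne
  have hmem : ∀ x : SpecialLinearGroup (Fin 2) R, SpecialLinearGroup.map (Ideal.Quotient.mk I) x = h →
      ∀ i j, x.1 i j - x₀.1 i j ∈ I := by
    intro x hx i j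
    rw [← Ideal.Quotient.eq]
    rw [← hx₀] at hx
    exact congrFun (congrFun (congrArg Subtype.val hx) i) j
  have hI2 : ∀ a ∈ I, ∀ b ∈ I, a * b = 0 := by
    intro a ha b hb
    have : a * b ∈ I ^ 2 := by
      rw [pow_two]
      exact Ideal.mul_mem_mul ha hb
    rw [hI] at this
    exact this
  -- multiply with the inverse of `x₀`
  let f : {x : SpecialLinearGroup (Fin 2) R //
      SpecialLinearGroup.map (Ideal.Quotient.mk I) x = h} → (Fin 3 → I) := fun x =>
    ![⟨(x₀⁻¹ * x.1).1 0 0 - 1, by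
        have h1 : (x₀⁻¹ * x.1).1 0 0 - 1 =
            x₀.1 1 1 * (x.1.1 0 0 - x₀.1 0 0) - x₀.1 0 1 * (x.1.1 1 0 - x₀.1 1 0) := by
          have h2 : (x₀⁻¹ * x.1).1 0 0 = x₀.1 1 1 * x.1.1 0 0 + -x₀.1 0 1 * x.1.1 1 0 := by
            change ((x₀⁻¹).1 * x.1.1) 0 0 = _
            rw [Matrix.mul_apply, Fin.sum_univ_two]
            change (x₀.1.adjugate) 0 0 * _ + (x₀.1.adjugate) 0 1 * _ = _
            rw [Matrix.adjugate_fin_two]
            rfl
          have h3 := x₀.2
          rw [Matrix.det_fin_two] at h3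
          rw [h2]
          linear_combination h3
        rw [h1]
        exact I.sub_mem (I.mul_mem_left _ (hmem _ x.2 _ _)) (I.mul_mem_left _ (hmem _ x.2 _ _))⟩,
      ⟨(x₀⁻¹ * x.1).1 0 1, by
        have h1 : (x₀⁻¹ * x.1).1 0 1 =
            x₀.1 1 1 * (x.1.1 0 1 - x₀.1 0 1) - x₀.1 0 1 * (x.1.1 1 1 - x₀.1 1 1) := by
          have h2 : (x₀⁻¹ * x.1).1 0 1 = x₀.1 1 1 * x.1.1 0 1 + -x₀.1 0 1 * x.1.1 1 1 := by
            change ((x₀⁻¹).1 * x.1.1) 0 1 = _
            rw [Matrix.mul_apply, Fin.sum_univ_two]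
            change (x₀.1.adjugate) 0 0 * _ + (x₀.1.adjugate) 0 1 * _ = _
            rw [Matrix.adjugate_fin_two]
            rfl
          rw [h2]
          ring
        rw [h1]
        exact I.sub_mem (I.mul_mem_left _ (hmem _ x.2 _ _)) (I.mul_mem_left _ (hmem _ x.2 _ _))⟩,
      ⟨(x₀⁻¹ * x.1).1 1 0, by
        have h1 : (x₀⁻¹ * x.1).1 1 0 =
            -x₀.1 1 0 * (x.1.1 0 0 - x₀.1 0 0) + x₀.1 0 0 * (x.1.1 1 0 - x₀.1 1 0) := by
          have h2 : (x₀⁻¹ * x.1).1 1 0 = -x₀.1 1 0 * x.1.1 0 0 + x₀.1 0 0 * x.1.1 1 0 := by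
            change ((x₀⁻¹).1 * x.1.1) 1 0 = _
            rw [Matrix.mul_apply, Fin.sum_univ_two]
            change (x₀.1.adjugate) 1 0 * _ + (x₀.1.adjugate) 1 1 * _ = _
            rw [Matrix.adjugate_fin_two]
            rfl
          rw [h2]
          ring
        rw [h1]
        exact I.add_mem (I.mul_mem_left _ (hmem _ x.2 _ _)) (I.mul_mem_left _ (hmem _ x.2 _ _))⟩]
  have hf : Function.Injective f := by
    intro x y hxy
    have e0 : (x₀⁻¹ * x.1).1 0 0 = (x₀⁻¹ * y.1).1 0 0 := by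
      have := congrArg Subtype.val (congrFun hxy 0)
      exact sub_left_injective this
    have e1 : (x₀⁻¹ * x.1).1 0 1 = (x₀⁻¹ * y.1).1 0 1 := congrArg Subtype.val (congrFun hxy 1)
    have e2 : (x₀⁻¹ * x.1).1 1 0 = (x₀⁻¹ * y.1).1 1 0 := congrArg Subtype.val (congrFun hxy 2)
    have hd : ∀ z : {x : SpecialLinearGroup (Fin 2) R //
        SpecialLinearGroup.map (Ideal.Quotient.mk I) x = h},
        (x₀⁻¹ * z.1).1 0 0 * (x₀⁻¹ * z.1).1 1 1 = 1 := by
      intro z
      have h3 := (x₀⁻¹ * z.1).2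
      have h4 : (x₀⁻¹ * z.1).1 0 1 * (x₀⁻¹ * z.1).1 1 0 = 0 := hI2 _ (f z 1).2 _ (f z 2).2
      rw [Matrix.det_fin_two, h4, sub_zero] at h3
      exact h3
    have e3 : (x₀⁻¹ * x.1).1 1 1 = (x₀⁻¹ * y.1).1 1 1 := by
      have hx := hd x
      have hy := hd y
      calc (x₀⁻¹ * x.1).1 1 1 = ((x₀⁻¹ * y.1).1 0 0 * (x₀⁻¹ * y.1).1 1 1) * (x₀⁻¹ * x.1).1 1 1 := by
            rw [hy, one_mul]
        _ = (x₀⁻¹ * y.1).1 1 1 * ((x₀⁻¹ * x.1).1 0 0 * (x₀⁻¹ * x.1).1 1 1) := by rw [e0]; ring
        _ = (x₀⁻¹ * y.1).1 1 1 := by rw [hx, mul_one]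
    have : x₀⁻¹ * x.1 = x₀⁻¹ * y.1 := by
      apply Subtype.ext
      ext i j
      fin_cases i <;> fin_cases j
      · exact e0
      · exact e1
      · exact e2
      · exact e3
    exact Subtype.ext (mul_left_cancel this)
  have := Nat.card_le_card_of_injective f hf
  rwa [Nat.card_fun, Nat.card_eq_fintype_card (α := Fin 3), Fintype.card_fin] at this

/-- existence: every tuple of images is possible -/
theorem ext_all {b : ℕ}
    (sm : ∀ (R : Type) [CommRing R] [Finite R] [Algebra (ZMod 2) R] (I : Ideal R), I ^ 2 = ⊥ →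
      ∀ r : Γ →* SpecialLinearGroup (Fin 2) (R ⧸ I),
      Nat.card {s : Γ →* SpecialLinearGroup (Fin 2) R //
        (SpecialLinearGroup.map (Ideal.Quotient.mk I)).comp s = r} = Nat.card I ^ (3 * b))
    (g : Fin b → Γ) (hg : ∀ χ : Γ →* Multiplicative (ZMod 2), (∀ i, χ (g i) = 1) → χ = 1) (N : ℕ) :
    ∀ (R : Type) [CommRing R] [Finite R] [Algebra (ZMod 2) R] (J : Ideal R), J ^ (N + 1) = ⊥ →
    ∀ h : Fin b → SpecialLinearGroup (Fin 2) R,
    (∀ l i j, (h l).1 i j - (1 : Matrix (Fin 2) (Fin 2) R) i j ∈ J) →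
    ∃ s : Γ →* SpecialLinearGroup (Fin 2) R, C1 J s ∧ ∀ l, s (g l) = h l := by
  induction N with
  | zero =>
    intro R _ _ _ J hJ h hh
    rw [zero_add, pow_one] at hJ
    refine ⟨1, fun x i j => ?_, fun l => ?_⟩
    · change (1 : Matrix (Fin 2) (Fin 2) R) i j - _ ∈ J
      rw [sub_self]
      exact J.zero_mem
    · symm
      apply Subtype.ext
      ext i j
      have := hh l i j
      rw [hJ] at this
      exact sub_eq_zero.1 this
  | succ N ih =>
    intro R _ _ _ J hJ h hh
    classical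
    let I : Ideal R := J ^ (N + 1)
    have hIJ : I ≤ J := Ideal.pow_le_self (Nat.succ_ne_zero N)
    have hI : I ^ 2 = ⊥ := by
      rw [eq_bot_iff, ← hJ, ← pow_mul]
      exact Ideal.pow_le_pow_right (by omega)
    let mk := Ideal.Quotient.mk I
    have hfQ : Finite (R ⧸ I) := Finite.of_surjective mk Ideal.Quotient.mk_surjective
    have hJ1 : (J.map mk) ^ (N + 1) = ⊥ := by
      rw [← Ideal.map_pow]
      exact Ideal.map_quotient_self I
    obtain ⟨s₁, hs₁, hs₁g⟩ := ih (R ⧸ I) (J.map mk) hJ1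
      (fun l => SpecialLinearGroup.map mk (h l)) (fun l i j => by
        have h1 : mk ((h l).1 i j - (1 : Matrix (Fin 2) (Fin 2) R) i j) ∈ J.map mk :=
          Ideal.mem_map_of_mem _ (hh l i j)
        have h2 : mk ((1 : Matrix (Fin 2) (Fin 2) R) i j) =
            (1 : Matrix (Fin 2) (Fin 2) (R ⧸ I)) i j := by
          rw [Matrix.one_apply, Matrix.one_apply]
          split_ifs <;> simp
        rw [map_sub, h2] at h1
        exact h1)
    have hcard := sm R I hI s₁
    -- all lifts are in `C1 J`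
    have hlift : ∀ s : Γ →* SpecialLinearGroup (Fin 2) R, (SpecialLinearGroup.map mk).comp s = s₁ →
        C1 J s := by
      intro s hs x i j
      have h1 := hs₁ x i j
      have h2 : (s₁ x).1 i j = mk ((s x).1 i j) := by
        rw [← hs]
        rfl
      have h3 : mk ((1 : Matrix (Fin 2) (Fin 2) R) i j) =
          (1 : Matrix (Fin 2) (Fin 2) (R ⧸ I)) i j := by
        rw [Matrix.one_apply, Matrix.one_apply]
        split_ifs <;> simp
      rw [h2, ← h3, ← map_sub] at h1
      have h4 := Ideal.mem_comap.2 h1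
      rwa [Ideal.comap_map_of_surjective mk Ideal.Quotient.mk_surjective,
        ← RingHom.ker_eq_comap_bot, Ideal.mk_ker, sup_eq_left.2 hIJ] at h4
    let X := {s : Γ →* SpecialLinearGroup (Fin 2) R // (SpecialLinearGroup.map mk).comp s = s₁}
    let Y := (l : Fin b) → {x : SpecialLinearGroup (Fin 2) R //
      SpecialLinearGroup.map mk x = SpecialLinearGroup.map mk (h l)}
    let F : X → Y := fun s l => ⟨s.1 (g l), by
      rw [← hs₁g l]
      exact DFunLike.congr_fun s.2 (g l)⟩
    have hF : Function.Injective F := by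
      intro s s' hss
      apply Subtype.ext
      refine uniq two_eq J (N + 2) hJ g hg s.1 s'.1 (hlift _ s.2) (hlift _ s'.2) fun l => ?_
      exact congrArg Subtype.val (congrFun hss l)
    have hfM : Finite (Matrix (Fin 2) (Fin 2) R) := by
      unfold Matrix
      infer_instance
    have hfS : Finite (SpecialLinearGroup (Fin 2) R) :=
      Finite.of_injective (fun A => A.1) Subtype.val_injective
    have hY : Nat.card Y ≤ Nat.card X := by
      have h1 : Nat.card Y = ∏ l : Fin b, Nat.card {x : SpecialLinearGroup (Fin 2) R //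
          SpecialLinearGroup.map mk x = SpecialLinearGroup.map mk (h l)} := Nat.card_pi
      rw [h1]
      change _ ≤ Nat.card X
      have h2 : Nat.card X = Nat.card I ^ (3 * b) := hcard
      rw [h2, pow_mul]
      calc (∏ l : Fin b, Nat.card {x : SpecialLinearGroup (Fin 2) R //
          SpecialLinearGroup.map mk x = SpecialLinearGroup.map mk (h l)})
          ≤ ∏ _l : Fin b, Nat.card I ^ 3 := Finset.prod_le_prod' fun l _ => card_fib I hI _
        _ = (Nat.card I ^ 3) ^ b := by rw [Finset.prod_const, Finset.card_univ, Fintype.card_fin]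
    have hXfin : Finite X := Finite.of_injective F hF
    have hbij : Function.Bijective F := by
      have : Fintype X := Fintype.ofFinite X
      have : Fintype Y := Fintype.ofFinite Y
      rw [Fintype.bijective_iff_injective_and_card]
      refine ⟨hF, le_antisymm ?_ ?_⟩
      · exact Fintype.card_le_of_injective F hF
      · rw [Nat.card_eq_fintype_card, Nat.card_eq_fintype_card] at hY
        exact hY
    obtain ⟨s, hs⟩ := hbij.2 fun l => ⟨h l, rfl⟩
    exact ⟨s.1, hlift _ s.2, fun l => congrArg Subtype.val (congrFun hs l)⟩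

end Pool.Agent.FrTop
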